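import Pool.Agent.H442R2.EHI.Dft

/-!
Elliott-Halberstam for almost all squares: statements of the pieces.

`L` below always stands for `Real.log x`.  `ffz x Q` is (indicator of the primes) minus (model),
a function on the integers supported in `[1, x]`.
-/

namespace Pool.Agent.Y856.Sq

open Finset
open Pool.Agent.H442R2.EHI

/-- sum along a progression with difference `Δ` -/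
noncomputable def AA (f : ℤ → ℂ) (Δ : ℤ) (L0 : ℕ) (y : ℤ) : ℂ := ∑ l ∈ range L0, f (y - Δ * l)

/-- the correlation attached to the pair `u = i - j`, `v = i + j` -/
noncomputable def ZZ (f : ℤ → ℂ) (x : ℕ) (c : ℤ) (k1 k2 : ℕ) (u v : ℤ) : ℂ :=
  ∑ n ∈ (Icc (1 : ℤ) x).filter (fun n => (k2 : ℤ) ∣ n - c - ((u + v) / 2) ^ 2),
    (starRingEnd ℂ) (f n) * f (n - (u * v / k1) * ((k1 : ℤ) - k2))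

/-- moments -/
noncomputable def mom (f : ℤ → ℂ) (x m : ℕ) : ℝ := ∑ n ∈ Icc (1 : ℤ) x, ‖f n‖ ^ m

/-- the off-diagonal sum over pairs `j < i` -/
noncomputable def Off (f : ℤ → ℂ) (x : ℕ) (c : ℤ) (k1 k2 I0 I1 : ℕ) : ℂ :=
  ∑ i ∈ Ioc I0 I1, ∑ j ∈ (Ioc I0 I1).filter (fun j => j < i ∧ k1 ∣ i ^ 2 - j ^ 2),
    ZZ f x c k1 k2 ((i - j : ℕ) : ℤ) ((i + j : ℕ) : ℤ)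

/-- SQ1: a counting lemma for congruences. -/
def S_cong : Prop := ∀ (k h : ℕ) (p a0 e : ℤ), 1 ≤ k → 1 ≤ h →
  ((((range (2 * k)) ×ˢ (range (2 * k))).filter (fun z : ℕ × ℕ =>
      (2 : ℤ) ∣ p + h * (a0 + z.1) ∧ (2 : ℤ) ∣ p + h * (a0 + z.2) ∧
      (k : ℤ) ∣ ((p + h * (a0 + z.1)) / 2 + e) ^ 2 - ((p + h * (a0 + z.2)) / 2 + e) ^ 2)).card : ℝ) ≤
    8 * (Nat.gcd h k : ℝ) ^ 2 * k * k.divisors.card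

/-- SQ2: the sum of `ZZ` over an interval of `t`, split into blocks of length `2 k2 L0`. -/
def S_block : Prop := ∀ (f : ℤ → ℂ) (x k1 k2 h p T0 T1 L0 : ℕ) (c : ℤ),
  (∀ n : ℤ, f n ≠ 0 → 1 ≤ n ∧ n ≤ x) → 1 ≤ k1 → 1 ≤ k2 → k2 ≤ x → 1 ≤ h → h ∣ k1 → 1 ≤ L0 →
  |2 * (p : ℤ) * ((k1 : ℤ) - k2) * k2| * L0 ≤ x →
  ‖∑ t ∈ (Ioc T0 T1).filter (fun t => 2 ∣ k1 / h * p + h * t),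
      ZZ f x c k1 k2 ((k1 / h * p : ℕ) : ℤ) ((h * t : ℕ) : ℤ)‖ ≤
    ∑ t ∈ (Ioc T0 T1).filter (fun t => T1 < t + 2 * k2 * L0 ∧ 2 ∣ k1 / h * p + h * t),
      ‖ZZ f x c k1 k2 ((k1 / h * p : ℕ) : ℤ) ((h * t : ℕ) : ℤ)‖ +
    ((T1 - T0 : ℕ) : ℝ) / (2 * k2 * L0) *
      ((40 * x * (Nat.gcd h k2 : ℝ) ^ 2 * k2.divisors.card) ^ (1 / 2 : ℝ) *
        mom f x 4 ^ (1 / 4 : ℝ) * mom f x 6 ^ (1 / 8 : ℝ) * (L0 : ℝ) ^ (3 / 4 : ℝ) *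
        (∑ y ∈ Icc (-(x : ℤ)) (2 * x),
          ‖AA f (2 * (p : ℤ) * ((k1 : ℤ) - k2) * k2) L0 y‖ ^ 2) ^ (1 / 8 : ℝ))

/-- SQ3: pairs `j < i` with `k ∣ (i - j) (i + j)`. -/
def S_pairs : Prop := ∀ (F : ℕ → ℕ → ℂ) (k I0 I1 : ℕ), 1 ≤ k → I0 ≤ I1 →
  ‖∑ i ∈ Ioc I0 I1, ∑ j ∈ (Ioc I0 I1).filter (fun j => j < i ∧ k ∣ i ^ 2 - j ^ 2),
      F (i - j) (i + j)‖ ≤
    (k.divisors.card : ℝ) * ∑ h ∈ k.divisors,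
      ∑ p ∈ (Icc 1 (2 * I1)).filter (fun p => k ∣ p * h ∧ k ≤ Nat.gcd p k ^ 2),
        (‖∑ r ∈ (Ioc (2 * I0 + p) (2 * I1 - p)).filter (fun r => h ∣ r ∧ 2 ∣ p + r), F p r‖ +
         ‖∑ r ∈ (Ioc 0 (min (p - 2 * I0 - 1) (2 * I1 - p))).filter
            (fun r => h ∣ r ∧ 2 ∣ p + r), F r p‖)

/-- SQ4: diophantine counting. -/
def S_dio : Prop := ∃ a : ℕ, ∀ (M K1 K P k1 : ℕ) (δ γ : ℝ), 2 ≤ M → M ^ a ≤ K → M ^ a ≤ P →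
  0 < δ → δ * (M : ℝ) ^ a ≤ 1 → k1 ≤ K → K1 ≤ K →
  (K : ℝ) * P ≤ M * ((((Ioc K1 K) ×ˢ (Icc 1 P)).filter (fun z : ℕ × ℕ =>
    nint (2 * (z.2 : ℝ) * ((k1 : ℝ) - z.1) * z.1 * γ) ≤ δ)).card : ℝ) →
  ∃ q : ℕ, 1 ≤ q ∧ q ≤ M ^ a ∧ ∃ b : ℤ, |γ - (b : ℝ) / q| ≤ (M : ℝ) ^ a * δ / (P * (K : ℝ) ^ 2)

/-- SQ5: the second moment of `AA` on average. -/
def S_avg : Prop := ∀ (ε : ℝ) (U C : ℕ), 0 < ε → ∃ E0 : ℕ, ∀ E1 : ℕ, E0 ≤ E1 →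
  ∃ x0 : ℕ, ∀ x : ℕ, x0 ≤ x → ∀ Q K1 K P L0 k1 : ℕ,
  (Q : ℝ) ≤ Real.log x ^ E1 → Real.log x ^ E1 ≤ 2 * Q →
  (x : ℝ) ^ ε ≤ K → (x : ℝ) ^ ε ≤ P → (x : ℝ) ^ ε ≤ L0 → k1 ≤ K → K1 ≤ K →
  2 * P * K ^ 2 * L0 ≤ x → (x : ℝ) ≤ P * (K : ℝ) ^ 2 * L0 * Real.log x ^ C →
  ∑ k2 ∈ Ioc K1 K, ∑ p ∈ Icc 1 P, ∑ y ∈ Icc (-(x : ℤ)) (2 * x),
    ‖AA (ffz x Q) (2 * (p : ℤ) * ((k1 : ℤ) - k2) * k2) L0 y‖ ^ 2 ≤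
    (K : ℝ) * P * x * (L0 : ℝ) ^ 2 / Real.log x ^ U

/-- SQ6: all moments of `ffz` (the exponent does not depend on `E1`). -/
def S_mom : Prop := ∀ m : ℕ, ∃ c : ℕ, ∀ E1 : ℕ, ∃ x0 : ℕ, ∀ x : ℕ, x0 ≤ x → ∀ Q : ℕ,
  (Q : ℝ) ≤ Real.log x ^ E1 → mom (ffz x Q) x m ≤ x * Real.log x ^ c

/-- SQ7: moments twisted by a divisor function. -/
def S_tb : Prop := ∀ m : ℕ, ∃ c : ℕ, ∀ E1 : ℕ, ∃ x0 : ℕ, ∀ x : ℕ, x0 ≤ x → ∀ Q K : ℕ,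
  (Q : ℝ) ≤ Real.log x ^ E1 → K ^ 2 ≤ x → ∀ a : ℤ, |a| ≤ 4 * x →
  ∑ k ∈ Icc 1 K, ∑ n ∈ (Icc (1 : ℤ) x).filter (fun n => (k : ℤ) ∣ n - a), ‖ffz x Q n‖ ^ m ≤
    x * Real.log x ^ c

/-- SQ7b: small quotients `k ≤ K1`. -/
def S_tk : Prop := ∃ c : ℕ, ∀ E1 : ℕ, ∃ x0 : ℕ, ∀ x : ℕ, x0 ≤ x → ∀ Q D K1 : ℕ,
  (Q : ℝ) ≤ Real.log x ^ E1 → ∀ a : ℤ, |a| ≤ 4 * x → ∀ σ : ℤ, (σ = 1 ∨ σ = -1) →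
  ∑ d ∈ Ioc D (2 * D), ∑ k ∈ Icc 1 K1, ‖ffz x Q (a + σ * d * k)‖ ≤
    √((D : ℝ) * K1) * √(x : ℝ) * Real.log x ^ c

/-- SQ8: the range `d ≤ x^{18/25}`. -/
def S_low : Prop := ∀ U : ℕ, ∃ x0 : ℕ, ∀ x : ℕ, x0 ≤ x → ∀ (c : ℤ) (I0 I1 D : ℕ),
  (∀ i ∈ Ioc I0 I1, 1 ≤ c + (i : ℤ) ^ 2 ∧ c + (i : ℤ) ^ 2 ≤ x) → I1 ^ 2 ≤ 2 * x →
  (D : ℝ) ≤ (x : ℝ) ^ (18 / 25 : ℝ) →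
  ∑ i ∈ Ioc I0 I1, ∑ d ∈ (Icc 1 D).filter (fun d => (c + (i : ℤ) ^ 2).toNat.Coprime d),
    |piAP x d (c + (i : ℤ) ^ 2).toNat - lis x / (Nat.totient d : ℝ)| ≤
    (x : ℝ) ^ (3 / 2 : ℝ) / Real.log x ^ U

/-- SQ9: the off-diagonal terms. -/
def S_off : Prop := ∀ (ε : ℝ) (U E2 : ℕ), 0 < ε → ∃ E0 : ℕ, ∀ E1 : ℕ, E0 ≤ E1 →
  ∃ x0 : ℕ, ∀ x : ℕ, x0 ≤ x → ∀ (Q K1 K I0 I1 : ℕ) (c : ℤ),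
  (Q : ℝ) ≤ Real.log x ^ E1 → Real.log x ^ E1 ≤ 2 * Q →
  (x : ℝ) ^ ε ≤ K → (K : ℝ) ≤ (x : ℝ) ^ (3 / 10 : ℝ) → K1 ≤ K →
  (K : ℝ) ≤ K1 * Real.log x ^ E2 → I0 ≤ I1 → I1 ^ 2 ≤ 2 * x → |c| ≤ x →
  ∑ k1 ∈ Ioc K1 K, ∑ k2 ∈ (Ioc K1 K).filter (fun k2 => k2 ≠ k1),
    ‖Off (ffz x Q) x c k1 k2 I0 I1‖ ≤ (x : ℝ) ^ 2 / Real.log x ^ U

/-- SQ10: the second moment. -/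
def S_sm : Prop := ∀ (ε : ℝ) (U E2 : ℕ), 0 < ε → ∃ E0 : ℕ, ∀ E1 : ℕ, E0 ≤ E1 →
  ∃ x0 : ℕ, ∀ x : ℕ, x0 ≤ x → ∀ (Q K1 K D I0 I1 : ℕ) (c σ : ℤ),
  (Q : ℝ) ≤ Real.log x ^ E1 → Real.log x ^ E1 ≤ 2 * Q →
  (x : ℝ) ^ ε ≤ K → (K : ℝ) ≤ (x : ℝ) ^ (3 / 10 : ℝ) → K1 ≤ K →
  (K : ℝ) ≤ K1 * Real.log x ^ E2 → I0 ≤ I1 → I1 ^ 2 ≤ 2 * x → |c| ≤ x →
  (∀ i ∈ Ioc I0 I1, 1 ≤ c + (i : ℤ) ^ 2 ∧ c + (i : ℤ) ^ 2 ≤ x) → (σ = 1 ∨ σ = -1) →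
  ∑ i ∈ Ioc I0 I1, ∑ d ∈ Ioc D (2 * D),
    ‖∑ k ∈ Ioc K1 K, ffz x Q (c + (i : ℤ) ^ 2 + σ * d * k)‖ ^ 2 ≤
    (x : ℝ) ^ (3 / 2 : ℝ) * K / Real.log x ^ U

/-- SQ11: the final theorem in terms of `lis`. -/
def S_fin : Prop := ∀ (ε : ℝ) (U : ℕ), 0 < ε → ∃ x0 : ℕ, ∀ x : ℕ, x0 ≤ x →
  ∀ (c : ℤ) (I0 I1 P : ℕ), |c| ≤ x →
  (∀ i ∈ Ioc I0 I1, 1 ≤ c + (i : ℤ) ^ 2 ∧ c + (i : ℤ) ^ 2 ≤ x) →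
  (P : ℝ) ≤ (x : ℝ) ^ (1 - ε) →
  ∑ i ∈ Ioc I0 I1, ∑ d ∈ (Icc 1 P).filter (fun d => (c + (i : ℤ) ^ 2).toNat.Coprime d),
    |piAP x d (c + (i : ℤ) ^ 2).toNat - lis x / (Nat.totient d : ℝ)| ≤
    (x : ℝ) ^ (3 / 2 : ℝ) / Real.log x ^ U

end Pool.Agent.Y856.Sq
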