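import Pool.Agent.Y856.Sq.Off6
import Pool.Agent.Y239.SQ.Cong
import Pool.Agent.Y812.SQ.Block
import Pool.Agent.Y210.SQ.Pairs
import Pool.Agent.Y353.SQ.Dio
import Pool.Agent.Y248.SQ.Avg2
import Pool.Agent.Y884.SQ.Tb
import Pool.Agent.Y870.SQ.Low3
import Pool.Agent.Y257.SQ.Sm
import Pool.Agent.Y312.SQ.Fin
import Pool.Agent.H442R2.EHI.PntErr
import Pool.Agent.W93.LV2

/-!
Elliott-Halberstam for almost all squares: conclusion.
-/

namespace Pool.Agent.Y856.Sq

open Finset Filter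
open Pool.Agent.H442R2.EHI

theorem fin_true : S_fin :=
  Pool.Agent.Y312.SQ.t
    (Pool.Agent.Y257.SQ.t
      (off Y210.SQ.t (Pool.Agent.Y812.SQ.t Pool.Agent.Y239.SQ.t)
        (Pool.Agent.Y248.SQ.t Pool.Agent.Y353.SQ4.t Pool.Agent.Y884.SQ.t_mom)
        Pool.Agent.Y884.SQ.t_mom Pool.Agent.Y884.SQ.t_tb)
      Pool.Agent.Y884.SQ.t_mom Pool.Agent.Y884.SQ.t_tb)
    Pool.Agent.Y884.SQ.t_tk Pool.Agent.Y870.SQ.t

/-- from squares to the parametrisation by `i` -/
lemma sum_squares (x : ℕ) (c : ℤ) (hc : |c| ≤ x) (G : ℕ → ℝ) (hG : ∀ a, 0 ≤ G a) :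
    ∑ a ∈ (Icc 1 x).filter (fun a : ℕ => IsSquare ((a : ℤ) - c)), G a ≤
      (if 1 ≤ c then G c.toNat else 0) +
      ∑ i ∈ Ioc (Nat.sqrt (-c).toNat) (Nat.sqrt ((x : ℤ) - c).toNat), G (c + (i : ℤ) ^ 2).toNat := by
  classical
  have hcx := abs_le.mp hc
  set I0 := Nat.sqrt (-c).toNat with hI0
  set I1 := Nat.sqrt ((x : ℤ) - c).toNat with hI1
  have hi : ∀ i ∈ Ioc I0 I1, 1 ≤ c + (i : ℤ) ^ 2 := by
    intro i hi
    rw [mem_Ioc] at hi
    have h1 : (-c).toNat < i ^ 2 := Nat.sqrt_lt'.1 hi.1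
    have h2 : (((-c).toNat : ℕ) : ℤ) < (i : ℤ) ^ 2 := by exact_mod_cast h1
    have h3 := Int.self_le_toNat (-c)
    linarith
  have hinj : Set.InjOn (fun i : ℕ => (c + (i : ℤ) ^ 2).toNat) (Ioc I0 I1 : Finset ℕ) := by
    intro i hi1 j hj1 hij
    have h1 := hi i (by exact_mod_cast hi1)
    have h2 := hi j (by exact_mod_cast hj1)
    have h3 : (c + (i : ℤ) ^ 2).toNat = (c + (j : ℤ) ^ 2).toNat := hij
    have h4 : c + (i : ℤ) ^ 2 = c + (j : ℤ) ^ 2 := by omega
    have h5 : (i : ℤ) ^ 2 = (j : ℤ) ^ 2 := by linarith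
    have h6 : i ^ 2 = j ^ 2 := by exact_mod_cast h5
    exact Nat.pow_left_injective (n := 2) (by norm_num) h6
  rw [← sum_image (f := G) (g := fun i : ℕ => (c + (i : ℤ) ^ 2).toNat) hinj]
  rw [← sum_filter_add_sum_filter_not _ (fun a : ℕ => (a : ℤ) = c)]
  apply add_le_add
  · by_cases h1 : 1 ≤ c
    · rw [if_pos h1]
      have h2 : ((Icc 1 x).filter (fun a : ℕ => IsSquare ((a : ℤ) - c))).filter
          (fun a : ℕ => (a : ℤ) = c) ⊆ {c.toNat} := by
        intro a ha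
        rw [mem_filter] at ha
        rw [mem_singleton, ← ha.2]
        simp
      refine (sum_le_sum_of_subset_of_nonneg h2 (fun _ _ _ => hG _)).trans (le_of_eq ?_)
      rw [sum_singleton]
    · rw [if_neg h1]
      apply le_of_eq
      apply sum_eq_zero
      intro a ha
      rw [mem_filter, mem_filter, mem_Icc] at ha
      omega
  · apply sum_le_sum_of_subset_of_nonneg _ (fun _ _ _ => hG _)
    intro a ha
    rw [mem_filter, mem_filter, mem_Icc] at ha
    obtain ⟨⟨⟨h1, h2⟩, r, hr⟩, h3⟩ := ha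
    rw [mem_image]
    have h4 : ((r.natAbs : ℕ) : ℤ) ^ 2 = r * r := by rw [Int.natAbs_sq]; ring
    have h4' : |r| ^ 2 = r * r := by rw [sq_abs]; ring
    refine ⟨r.natAbs, ?_, ?_⟩
    · rw [mem_Ioc]
      constructor
      · rw [hI0, Nat.sqrt_lt']
        zify
        rw [h4', ← hr]
        rcases le_or_gt 0 (-c) with h5 | h5
        · rw [Int.toNat_of_nonneg h5]; omega
        · rw [Int.toNat_of_nonpos (by omega)]
          have h6 : 0 ≤ r * r := mul_self_nonneg r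
          have h7 : (a : ℤ) - c ≠ 0 := by omega
          omega
      · rw [hI1, Nat.le_sqrt']
        zify
        rw [h4', ← hr, Int.toNat_of_nonneg (by omega)]
        omega
    · rw [h4, ← hr]
      simp

/-- the main theorem -/
theorem main (θ : ℝ) (hθ : θ < 1) (A : ℝ) (hA : 0 < A) : ∃ C : ℝ, ∀ x : ℕ, 2 < x → ∀ c : ℤ,
    |c| ≤ x →
    ∑ a ∈ (Icc 1 x).filter (fun a : ℕ => IsSquare ((a : ℤ) - c)),
      ∑ q ∈ (Icc 1 ⌊(x : ℝ) ^ θ⌋₊).filter (fun q => a.Coprime q),
        |piAP x q a - (((Icc 1 x).filter (fun p : ℕ => p.Prime)).card : ℝ) / (Nat.totient q : ℝ)| ≤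
      C * ((x : ℝ) ^ (3 / 2 : ℝ) / Real.log x ^ A) := by
  classical
  obtain ⟨U, hU⟩ : ∃ U, U = ⌈A⌉₊ := ⟨_, rfl⟩
  have hUA : A ≤ U := by rw [hU]; exact Nat.le_ceil A
  obtain ⟨x0, hx0⟩ := fin_true (1 - θ) U (by linarith)
  obtain ⟨C1, hC1⟩ := pnt_err (U + 2)
  obtain ⟨X, hX⟩ : ∃ X : ℕ, X = max x0 3 := ⟨_, rfl⟩
  obtain ⟨C, hC⟩ : ∃ C : ℝ, C = max ((X : ℝ) ^ 3 * Real.log X ^ A) (2 + 12 * |C1|) := ⟨_, rfl⟩
  have hCa : (X : ℝ) ^ 3 * Real.log X ^ A ≤ C := by rw [hC]; exact le_max_left _ _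
  have hCb : 2 + 12 * |C1| ≤ C := by rw [hC]; exact le_max_right _ _
  refine ⟨C, fun x hx c hc => ?_⟩
  have hx3 : (3 : ℝ) ≤ x := by exact_mod_cast hx
  have rx : (0 : ℝ) < x := by linarith
  have hL1 : 1 ≤ Real.log x := by
    rw [Real.le_log_iff_exp_le rx]
    have := Real.exp_one_lt_d9
    linarith
  have hL0 : 0 < Real.log x := by linarith
  have hLA : 0 < Real.log x ^ A := by positivity
  have hP : ((⌊(x : ℝ) ^ θ⌋₊ : ℕ) : ℝ) ≤ (x : ℝ) ^ θ := Nat.floor_le (by positivity)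
  have hPx : (x : ℝ) ^ θ ≤ x := by
    calc (x : ℝ) ^ θ ≤ (x : ℝ) ^ (1 : ℝ) :=
          Real.rpow_le_rpow_of_exponent_le (by linarith) hθ.le
      _ = x := Real.rpow_one _
  have hPx' : ⌊(x : ℝ) ^ θ⌋₊ ≤ x := by exact_mod_cast hP.trans hPx
  set π1 : ℝ := (((Icc 1 x).filter (fun p : ℕ => p.Prime)).card : ℝ) with hπ
  have hπ0 : 0 ≤ π1 := Nat.cast_nonneg _
  have hπx : π1 ≤ x := by
    rw [hπ]
    exact_mod_cast (card_filter_le _ _).trans (by simp)
  rcases lt_or_ge x X with hlt | hge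
  · -- trivial bound
    have hxX : (x : ℝ) ≤ X := by exact_mod_cast hlt.le
    have h1 : ∀ a ∈ (Icc 1 x).filter (fun a : ℕ => IsSquare ((a : ℤ) - c)),
        ∑ q ∈ (Icc 1 ⌊(x : ℝ) ^ θ⌋₊).filter (fun q => a.Coprime q),
          |piAP x q a - π1 / (Nat.totient q : ℝ)| ≤ x * x := by
      intro a _
      have h2 : ∀ q ∈ (Icc 1 ⌊(x : ℝ) ^ θ⌋₊).filter (fun q => a.Coprime q),
          |piAP x q a - π1 / (Nat.totient q : ℝ)| ≤ x := by
        intro q hq
        rw [mem_filter, mem_Icc] at hq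
        have hφ : (1 : ℝ) ≤ Nat.totient q := by exact_mod_cast Nat.totient_pos.mpr (by omega)
        have h3 : piAP x q a ≤ x := by
          unfold piAP
          exact_mod_cast (card_filter_le _ _).trans (by simp)
        have h4 : 0 ≤ piAP x q a := Nat.cast_nonneg _
        have h5 : π1 / (Nat.totient q : ℝ) ≤ x := by
          rw [div_le_iff₀ (by linarith)]
          nlinarith
        have h6 : 0 ≤ π1 / (Nat.totient q : ℝ) := by positivity
        rw [abs_le]
        constructor <;> linarith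
      refine (sum_le_sum h2).trans ?_
      rw [sum_const, nsmul_eq_mul]
      apply mul_le_mul_of_nonneg_right _ rx.le
      have : ((Icc 1 ⌊(x : ℝ) ^ θ⌋₊).filter (fun q => a.Coprime q)).card ≤ x :=
        (card_filter_le _ _).trans (by simpa using hPx')
      exact_mod_cast this
    refine (sum_le_sum h1).trans ?_
    rw [sum_const, nsmul_eq_mul]
    have h7 : (((Icc 1 x).filter (fun a : ℕ => IsSquare ((a : ℤ) - c))).card : ℝ) ≤ x := by
      have : ((Icc 1 x).filter (fun a : ℕ => IsSquare ((a : ℤ) - c))).card ≤ x :=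
        (card_filter_le _ _).trans (by simp)
      exact_mod_cast this
    have h8 : (1 : ℝ) ≤ (x : ℝ) ^ (3 / 2 : ℝ) := Real.one_le_rpow (by linarith) (by norm_num)
    have h9 : Real.log x ^ A ≤ Real.log X ^ A := by
      apply Real.rpow_le_rpow hL0.le _ hA.le
      exact Real.log_le_log rx hxX
    calc (((Icc 1 x).filter (fun a : ℕ => IsSquare ((a : ℤ) - c))).card : ℝ) * (x * x) ≤
          x * (x * x) := by gcongr
      _ ≤ (X : ℝ) ^ 3 := by
          calc (x : ℝ) * (x * x) = x ^ 3 := by ring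
            _ ≤ (X : ℝ) ^ 3 := by gcongr
      _ = ((X : ℝ) ^ 3 * Real.log x ^ A) * (1 / Real.log x ^ A) := by field_simp
      _ ≤ C * ((x : ℝ) ^ (3 / 2 : ℝ) / Real.log x ^ A) := by
          apply mul_le_mul _ _ (by positivity) _
          · refine le_trans ?_ hCa
            gcongr
          · gcongr
          · refine le_trans ?_ hCb
            positivity
  · have hxx0 : x0 ≤ x := (le_max_left x0 3).trans (by rw [← hX]; exact hge)
    obtain ⟨L, hL⟩ : ∃ L, L = Real.log x := ⟨_, rfl⟩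
    rw [← hL] at hL1 hL0
    have hcx := abs_le.mp hc
    -- the sums over `q`
    set G : ℕ → ℝ := fun a => ∑ q ∈ (Icc 1 ⌊(x : ℝ) ^ θ⌋₊).filter (fun q => a.Coprime q),
      |piAP x q a - lis x / (Nat.totient q : ℝ)| with hG
    have hG0 : ∀ a, 0 ≤ G a := fun a => sum_nonneg fun _ _ => abs_nonneg _
    set T : ℝ := (x : ℝ) ^ (3 / 2 : ℝ) / L ^ U with hT
    have hT0 : 0 ≤ T := by positivity
    have hPθ : ((⌊(x : ℝ) ^ θ⌋₊ : ℕ) : ℝ) ≤ (x : ℝ) ^ (1 - (1 - θ)) := by
      rw [show 1 - (1 - θ) = θ by ring]; exact hP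
    have hmain : ∑ a ∈ (Icc 1 x).filter (fun a : ℕ => IsSquare ((a : ℤ) - c)), G a ≤ 2 * T := by
      refine (sum_squares x c hc G hG0).trans ?_
      have e1 : (if 1 ≤ c then G c.toNat else 0) ≤ T := by
        split_ifs with h1
        · have h2 := hx0 x hxx0 (c - 1) 0 1 ⌊(x : ℝ) ^ θ⌋₊ (by rw [abs_le]; constructor <;> omega)
            (by
              intro i hi
              rw [mem_Ioc] at hi
              have : i = 1 := by omega
              rw [this]
              constructor <;> push_cast <;> omega) hPθ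
          rw [show Ioc 0 1 = ({1} : Finset ℕ) by rfl, sum_singleton, ← hL] at h2
          have h3 : (c - 1 + ((1 : ℕ) : ℤ) ^ 2) = c := by push_cast; ring
          rw [h3] at h2
          exact h2
        · exact hT0
      have e2 := hx0 x hxx0 c (Nat.sqrt (-c).toNat) (Nat.sqrt ((x : ℤ) - c).toNat)
        ⌊(x : ℝ) ^ θ⌋₊ hc (by
          intro i hi
          rw [mem_Ioc] at hi
          have h1 : (-c).toNat < i ^ 2 := Nat.sqrt_lt'.1 hi.1
          have h2 : (((-c).toNat : ℕ) : ℤ) < (i : ℤ) ^ 2 := by exact_mod_cast h1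
          have h3 := Int.self_le_toNat (-c)
          have h4 : i ^ 2 ≤ ((x : ℤ) - c).toNat := Nat.le_sqrt'.1 hi.2
          have h5 : (i : ℤ) ^ 2 ≤ ((((x : ℤ) - c).toNat : ℕ) : ℤ) := by exact_mod_cast h4
          rw [Int.toNat_of_nonneg (by omega)] at h5
          constructor <;> linarith) hPθ
      rw [← hL] at e2
      linarith
    -- number of residues
    have hcard : (((Icc 1 x).filter (fun a : ℕ => IsSquare ((a : ℤ) - c))).card : ℝ) ≤
        3 * (x : ℝ) ^ (1 / 2 : ℝ) := by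
      have h1 := sum_squares x c hc (fun _ => 1) (fun _ => zero_le_one)
      rw [sum_const, sum_const, nsmul_eq_mul, nsmul_eq_mul, mul_one, mul_one, Nat.card_Ioc] at h1
      have h2 : (if 1 ≤ c then (1 : ℝ) else 0) ≤ 1 := by split_ifs <;> norm_num
      have h3 : ((Nat.sqrt ((x : ℤ) - c).toNat - Nat.sqrt (-c).toNat : ℕ) : ℝ) ≤
          2 * (x : ℝ) ^ (1 / 2 : ℝ) := by
        have h4 : Nat.sqrt ((x : ℤ) - c).toNat - Nat.sqrt (-c).toNat ≤ Nat.sqrt (2 * x) := by
          refine (Nat.sub_le _ _).trans (Nat.sqrt_le_sqrt ?_)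
          omega
        have h5 : (Nat.sqrt (2 * x) : ℝ) ≤ √((2 * x : ℕ) : ℝ) := Real.nat_sqrt_le_real_sqrt
        have h6 : √((2 * x : ℕ) : ℝ) ≤ 2 * √(x : ℝ) := by
          rw [Real.sqrt_le_left (by positivity), mul_pow, Real.sq_sqrt rx.le]
          push_cast
          linarith
        rw [← Real.sqrt_eq_rpow]
        have h7 : ((Nat.sqrt ((x : ℤ) - c).toNat - Nat.sqrt (-c).toNat : ℕ) : ℝ) ≤
            (Nat.sqrt (2 * x) : ℝ) := by exact_mod_cast h4
        linarith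
      have h8 : (1 : ℝ) ≤ (x : ℝ) ^ (1 / 2 : ℝ) := Real.one_le_rpow (by linarith) (by norm_num)
      linarith
    -- from `lis` to `π`
    have hpnt : |π1 - lis x| ≤ |C1| * x / L ^ (U + 2) := by
      have h1 := hC1 x (by omega)
      rw [← hL, ← hπ] at h1
      refine h1.trans ?_
      have := le_abs_self C1
      gcongr
    have hφsum : ∑ q ∈ Icc 1 ⌊(x : ℝ) ^ θ⌋₊, 1 / (Nat.totient q : ℝ) ≤ 4 * L ^ 2 := by
      refine (Pool.Agent.W93.LV.inv_phi_sum _ x hPx').trans ?_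
      rw [← hL]
      nlinarith
    have hpt : ∀ a ∈ (Icc 1 x).filter (fun a : ℕ => IsSquare ((a : ℤ) - c)),
        ∑ q ∈ (Icc 1 ⌊(x : ℝ) ^ θ⌋₊).filter (fun q => a.Coprime q),
          |piAP x q a - π1 / (Nat.totient q : ℝ)| ≤ G a + 4 * |C1| * x / L ^ U := by
      intro a _
      have h1 : ∀ q ∈ (Icc 1 ⌊(x : ℝ) ^ θ⌋₊).filter (fun q => a.Coprime q),
          |piAP x q a - π1 / (Nat.totient q : ℝ)| ≤
          |piAP x q a - lis x / (Nat.totient q : ℝ)| +
            (|C1| * x / L ^ (U + 2)) * (1 / (Nat.totient q : ℝ)) := by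
        intro q hq
        rw [mem_filter, mem_Icc] at hq
        have hφ : (0 : ℝ) < Nat.totient q := by exact_mod_cast Nat.totient_pos.mpr (by omega)
        have h2 : piAP x q a - π1 / (Nat.totient q : ℝ) =
            (piAP x q a - lis x / (Nat.totient q : ℝ)) - (π1 - lis x) / (Nat.totient q : ℝ) := by
          ring
        rw [h2]
        refine (abs_sub _ _).trans ?_
        apply add_le_add le_rfl
        rw [abs_div, abs_of_pos hφ, ← mul_one_div]
        gcongr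
      refine (sum_le_sum h1).trans ?_
      rw [sum_add_distrib, ← mul_sum]
      apply add_le_add le_rfl
      have h3 : ∑ q ∈ (Icc 1 ⌊(x : ℝ) ^ θ⌋₊).filter (fun q => a.Coprime q),
          1 / (Nat.totient q : ℝ) ≤ 4 * L ^ 2 := by
        refine le_trans ?_ hφsum
        apply sum_le_sum_of_subset_of_nonneg (filter_subset _ _)
        intros; positivity
      calc |C1| * x / L ^ (U + 2) * ∑ q ∈ (Icc 1 ⌊(x : ℝ) ^ θ⌋₊).filter (fun q => a.Coprime q),
          1 / (Nat.totient q : ℝ) ≤ |C1| * x / L ^ (U + 2) * (4 * L ^ 2) := by gcongr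
        _ = 4 * |C1| * x / L ^ U := by rw [pow_add]; field_simp
    refine (sum_le_sum hpt).trans ?_
    rw [sum_add_distrib, sum_const, nsmul_eq_mul]
    have hsecond : (((Icc 1 x).filter (fun a : ℕ => IsSquare ((a : ℤ) - c))).card : ℝ) *
        (4 * |C1| * x / L ^ U) ≤ 12 * |C1| * T := by
      calc (((Icc 1 x).filter (fun a : ℕ => IsSquare ((a : ℤ) - c))).card : ℝ) *
          (4 * |C1| * x / L ^ U) ≤ (3 * (x : ℝ) ^ (1 / 2 : ℝ)) * (4 * |C1| * x / L ^ U) := by
            gcongr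
        _ = 12 * |C1| * (((x : ℝ) ^ (1 / 2 : ℝ) * (x : ℝ) ^ (1 : ℝ)) / L ^ U) := by
            rw [Real.rpow_one]; ring
        _ = 12 * |C1| * T := by rw [← Real.rpow_add rx, hT]; norm_num
    calc ∑ a ∈ (Icc 1 x).filter (fun a : ℕ => IsSquare ((a : ℤ) - c)), G a +
        (((Icc 1 x).filter (fun a : ℕ => IsSquare ((a : ℤ) - c))).card : ℝ) *
        (4 * |C1| * x / L ^ U) ≤ 2 * T + 12 * |C1| * T := add_le_add hmain hsecond
      _ = (2 + 12 * |C1|) * T := by ring
      _ ≤ C * T := by gcongr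
      _ ≤ C * ((x : ℝ) ^ (3 / 2 : ℝ) / Real.log x ^ A) := by
          have hC0 : 0 ≤ C := le_trans (by positivity) hCb
          apply mul_le_mul_of_nonneg_left _ hC0
          rw [hT, ← hL]
          have : L ^ A ≤ L ^ U := by
            rw [← Real.rpow_natCast]
            exact Real.rpow_le_rpow_of_exponent_le hL1 hUA
          have hLA' : 0 < L ^ A := by positivity
          gcongr

end Pool.Agent.Y856.Sq
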