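import Pool.Agent.Y856.Sq.Stm

/-!
The off-diagonal terms: preliminaries.
-/

namespace Pool.Agent.Y856.Sq

open Finset
open Pool.Agent.H442R2.EHI

/-- second moments in progressions -/
noncomputable def WW (f : ℤ → ℂ) (x m k : ℕ) (a : ℤ) : ℝ :=
  ∑ n ∈ (Icc (1 : ℤ) x).filter (fun n => (k : ℤ) ∣ n - a), ‖f n‖ ^ m

lemma WW_nonneg (f : ℤ → ℂ) (x m k : ℕ) (a : ℤ) : 0 ≤ WW f x m k a :=
  sum_nonneg fun _ _ => by positivity

lemma ZZ_symm (f : ℤ → ℂ) (x : ℕ) (c : ℤ) (k1 k2 : ℕ) (u v : ℤ) :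
    ZZ f x c k1 k2 u v = ZZ f x c k1 k2 v u := by
  unfold ZZ
  rw [add_comm u v, mul_comm u v]

lemma ZZ_le (f : ℤ → ℂ) (x : ℕ) (hf : ∀ n : ℤ, f n ≠ 0 → 1 ≤ n ∧ n ≤ x) (c : ℤ) (k1 k2 : ℕ)
    (hk1 : 1 ≤ k1) (u v : ℤ) (h2 : (2 : ℤ) ∣ u + v) (hd : (k1 : ℤ) ∣ u * v) :
    ‖ZZ f x c k1 k2 u v‖ ≤ (WW f x 2 k2 (c + ((u + v) / 2) ^ 2) +
      WW f x 2 k2 (c + ((v - u) / 2) ^ 2)) / 2 := by
  classical
  obtain ⟨y, hy⟩ := h2
  obtain ⟨m, hm⟩ := hd
  have hk : (k1 : ℤ) ≠ 0 := by exact_mod_cast (by omega : k1 ≠ 0)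
  have hy2 : (u + v) / 2 = y := by rw [hy]; simp
  have hy3 : (v - u) / 2 = y - u := by
    have : v - u = 2 * (y - u) := by linarith
    rw [this]; simp
  have hm2 : u * v / k1 = m := by rw [hm, Int.mul_ediv_cancel_left _ hk]
  unfold ZZ
  rw [hy2, hy3, hm2]
  set s := m * ((k1 : ℤ) - k2) with hs
  have h1 : ‖∑ n ∈ (Icc (1 : ℤ) x).filter (fun n => (k2 : ℤ) ∣ n - c - y ^ 2),
      (starRingEnd ℂ) (f n) * f (n - s)‖ ≤
      ∑ n ∈ (Icc (1 : ℤ) x).filter (fun n => (k2 : ℤ) ∣ n - c - y ^ 2),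
        (‖f n‖ ^ 2 / 2 + ‖f (n - s)‖ ^ 2 / 2) := by
    refine (norm_sum_le _ _).trans (sum_le_sum fun n _ => ?_)
    rw [norm_mul, RCLike.norm_conj]
    nlinarith [sq_nonneg (‖f n‖ - ‖f (n - s)‖)]
  refine h1.trans ?_
  rw [sum_add_distrib]
  have e1 : ∑ n ∈ (Icc (1 : ℤ) x).filter (fun n => (k2 : ℤ) ∣ n - c - y ^ 2), ‖f n‖ ^ 2 / 2 =
      WW f x 2 k2 (c + y ^ 2) / 2 := by
    unfold WW
    rw [sum_div]
    apply sum_congr _ fun _ _ => rfl
    apply filter_congr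
    intro n _
    rw [show n - (c + y ^ 2) = n - c - y ^ 2 by ring]
  have e2 : ∑ n ∈ (Icc (1 : ℤ) x).filter (fun n => (k2 : ℤ) ∣ n - c - y ^ 2), ‖f (n - s)‖ ^ 2 / 2 ≤
      WW f x 2 k2 (c + (y - u) ^ 2) / 2 := by
    unfold WW
    rw [sum_div]
    have e3 : ∑ n ∈ (Icc (1 : ℤ) x).filter (fun n => (k2 : ℤ) ∣ n - c - y ^ 2), ‖f (n - s)‖ ^ 2 / 2 =
        ∑ n ∈ ((Icc (1 : ℤ) x).filter (fun n => (k2 : ℤ) ∣ n - c - y ^ 2)).filter
          (fun n => f (n - s) ≠ 0), ‖f (n - s)‖ ^ 2 / 2 := by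
      symm
      apply sum_filter_of_ne
      intro n _ hne hf0
      apply hne
      rw [hf0]; simp
    rw [e3]
    rw [← sum_image (f := fun n => ‖f n‖ ^ 2 / 2) (g := fun n : ℤ => n - s)
      (s := ((Icc (1 : ℤ) x).filter (fun n => (k2 : ℤ) ∣ n - c - y ^ 2)).filter
          (fun n => f (n - s) ≠ 0)) (fun a _ b _ hab => by simpa using hab)]
    apply sum_le_sum_of_subset_of_nonneg
    · intro n' hn'
      rw [mem_image] at hn'
      obtain ⟨n, hn, rfl⟩ := hn'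
      rw [mem_filter, mem_filter] at hn
      obtain ⟨⟨_, hn2⟩, hn3⟩ := hn
      rw [mem_filter, mem_Icc]
      refine ⟨hf _ hn3, ?_⟩
      obtain ⟨w, hw⟩ := hn2
      refine ⟨w + m, ?_⟩
      have e4 : y ^ 2 - (y - u) ^ 2 = u * v := by
        have : v = 2 * y - u := by linarith
        rw [this]; ring
      rw [hs]
      have e5 : n - m * ((k1 : ℤ) - k2) - (c + (y - u) ^ 2) =
          (n - c - y ^ 2) + (y ^ 2 - (y - u) ^ 2) - m * k1 + m * k2 := by ring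
      rw [e5, hw, e4, hm]
      ring
    · intros; positivity
  rw [e1]
  linarith

/-- reparametrisation of the multiples of `h` -/
lemma sum_mult (h R0 R1 : ℕ) (hh : 1 ≤ h) (p : ℕ) {M : Type*} [AddCommMonoid M] (F : ℕ → M) :
    ∑ r ∈ (Ioc R0 R1).filter (fun r => h ∣ r ∧ 2 ∣ p + r), F r =
    ∑ t ∈ (Ioc (R0 / h) (R1 / h)).filter (fun t => 2 ∣ p + h * t), F (h * t) := by
  symm
  apply sum_nbij' (fun t => h * t) (fun r => r / h)
  · intro t ht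
    rw [mem_filter, mem_Ioc] at ht
    rw [mem_filter, mem_Ioc]
    refine ⟨⟨?_, ?_⟩, dvd_mul_right _ _, ht.2⟩
    · have := (Nat.div_lt_iff_lt_mul (by omega : 0 < h)).1 ht.1.1
      rw [mul_comm]; exact this
    · have := (Nat.le_div_iff_mul_le (by omega : 0 < h)).1 ht.1.2
      rw [mul_comm]; exact this
  · intro r hr
    rw [mem_filter, mem_Ioc] at hr
    obtain ⟨⟨h1, h2⟩, ⟨t, rfl⟩, h4⟩ := hr
    rw [Nat.mul_div_cancel_left _ (by omega), mem_filter, mem_Ioc]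
    refine ⟨⟨?_, ?_⟩, h4⟩
    · rw [Nat.div_lt_iff_lt_mul (by omega), mul_comm]; exact h1
    · rw [Nat.le_div_iff_mul_le (by omega), mul_comm]; exact h2
  · intro t _
    exact Nat.mul_div_cancel_left _ (by omega)
  · intro r hr
    rw [mem_filter] at hr
    exact Nat.mul_div_cancel' hr.2.1
  · intro t _
    rfl

/-- reparametrisation of `p` -/
lemma sum_p (k h I J : ℕ) (hk : 1 ≤ k) (hh : h ∣ k) (hIJ : I ≤ J) (G : ℕ → ℝ) (hG : ∀ p, 0 ≤ G p) :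
    ∑ p ∈ (Icc 1 (2 * I)).filter (fun p => k ∣ p * h ∧ k ≤ Nat.gcd p k ^ 2), G p ≤
    ∑ p ∈ Icc 1 (2 * J * h / k), if k / h * p ≤ 2 * I then G (k / h * p) else 0 := by
  classical
  obtain ⟨g, rfl⟩ := hh
  have hh0 : 0 < h := Nat.pos_of_ne_zero (by rintro rfl; simp at hk)
  have hg0 : 0 < g := Nat.pos_of_ne_zero (by rintro rfl; simp at hk)
  rw [Nat.mul_div_cancel_left _ hh0]
  rw [← sum_filter]
  rw [← sum_image (f := G) (g := fun p => g * p) (s := (Icc 1 (2 * J * h / (h * g))).filter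
    (fun p => g * p ≤ 2 * I)) (fun a _ b _ hab => Nat.eq_of_mul_eq_mul_left hg0 hab)]
  apply sum_le_sum_of_subset_of_nonneg
  · intro p hp
    rw [mem_filter, mem_Icc] at hp
    obtain ⟨⟨h1, h2⟩, h3, _⟩ := hp
    have h4 : g ∣ p := by
      rw [mul_comm h g] at h3
      exact Nat.dvd_of_mul_dvd_mul_right hh0 h3
    obtain ⟨q, rfl⟩ := h4
    rw [mem_image]
    refine ⟨q, ?_, rfl⟩
    rw [mem_filter, mem_Icc]
    refine ⟨⟨Nat.pos_of_ne_zero (by rintro rfl; simp at h1), ?_⟩, h2⟩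
    rw [Nat.le_div_iff_mul_le (Nat.mul_pos hh0 hg0)]
    calc q * (h * g) = (g * q) * h := by ring
      _ ≤ (2 * J) * h := Nat.mul_le_mul_right _ (by omega)
  · intros; exact hG _

/-- the number of `p` with a large common divisor with `k` -/
lemma card_p (k N : ℕ) (hk : 1 ≤ k) :
    (((Icc 1 N).filter (fun p => k ≤ Nat.gcd p k ^ 2)).card : ℝ) ≤
      k.divisors.card * (N / √(k : ℝ)) := by
  classical
  have hk0 : (0 : ℝ) < k := by exact_mod_cast hk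
  have hs0 : 0 < √(k : ℝ) := Real.sqrt_pos.2 hk0
  have h1 : (Icc 1 N).filter (fun p => k ≤ Nat.gcd p k ^ 2) ⊆
      (k.divisors.filter (fun g => k ≤ g ^ 2)).biUnion (fun g => (Icc 1 N).filter (fun p => g ∣ p)) := by
    intro p hp
    rw [mem_filter] at hp
    rw [mem_biUnion]
    refine ⟨Nat.gcd p k, ?_, ?_⟩
    · rw [mem_filter, Nat.mem_divisors]
      exact ⟨⟨Nat.gcd_dvd_right _ _, by omega⟩, hp.2⟩
    · rw [mem_filter]
      exact ⟨hp.1, Nat.gcd_dvd_left _ _⟩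
  have h2 : (((Icc 1 N).filter (fun p => k ≤ Nat.gcd p k ^ 2)).card : ℝ) ≤
      ∑ g ∈ k.divisors.filter (fun g => k ≤ g ^ 2), (((Icc 1 N).filter (fun p => g ∣ p)).card : ℝ) := by
    have := (card_le_card h1).trans card_biUnion_le
    exact_mod_cast this
  refine h2.trans ?_
  have h3 : ∀ g ∈ k.divisors.filter (fun g => k ≤ g ^ 2),
      (((Icc 1 N).filter (fun p => g ∣ p)).card : ℝ) ≤ N / √(k : ℝ) := by
    intro g hg
    rw [mem_filter, Nat.mem_divisors] at hg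
    have hg0 : 0 < g := Nat.pos_of_ne_zero (by rintro rfl; simp at hg)
    have h4 : ((Icc 1 N).filter (fun p => g ∣ p)).card = N / g := by
      have := Nat.Ioc_filter_dvd_card_eq_div N g
      rw [← this]
      congr 1
    rw [h4]
    have h5 : √(k : ℝ) ≤ g := by
      rw [Real.sqrt_le_left (by positivity)]
      exact_mod_cast hg.2
    calc ((N / g : ℕ) : ℝ) ≤ N / g := Nat.cast_div_le
      _ ≤ N / √(k : ℝ) := by
        apply div_le_div_of_nonneg_left (Nat.cast_nonneg _) hs0 h5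
  refine (sum_le_sum h3).trans ?_
  rw [sum_const, nsmul_eq_mul]
  apply mul_le_mul_of_nonneg_right _ (by positivity)
  exact_mod_cast card_filter_le _ _

/-- numbers having a large common factor with `h` -/
lemma card_bad (h K : ℕ) (G0 : ℝ) (hG : 0 < G0) (hh : 1 ≤ h) :
    (((Icc 1 K).filter (fun k => G0 < (Nat.gcd h k : ℝ))).card : ℝ) ≤
      h.divisors.card * (K / G0) := by
  classical
  have h1 : (Icc 1 K).filter (fun k => G0 < (Nat.gcd h k : ℝ)) ⊆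
      (h.divisors.filter (fun g : ℕ => G0 < (g : ℝ))).biUnion
        (fun g => (Icc 1 K).filter (fun p => g ∣ p)) := by
    intro p hp
    rw [mem_filter] at hp
    rw [mem_biUnion]
    refine ⟨Nat.gcd h p, ?_, ?_⟩
    · rw [mem_filter, Nat.mem_divisors]
      exact ⟨⟨Nat.gcd_dvd_left _ _, by omega⟩, hp.2⟩
    · rw [mem_filter]
      exact ⟨hp.1, Nat.gcd_dvd_right _ _⟩
  have h2 : (((Icc 1 K).filter (fun k => G0 < (Nat.gcd h k : ℝ))).card : ℝ) ≤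
      ∑ g ∈ h.divisors.filter (fun g : ℕ => G0 < (g : ℝ)),
        (((Icc 1 K).filter (fun p => g ∣ p)).card : ℝ) := by
    have := (card_le_card h1).trans card_biUnion_le
    exact_mod_cast this
  refine h2.trans ?_
  have h3 : ∀ g ∈ h.divisors.filter (fun g : ℕ => G0 < (g : ℝ)),
      (((Icc 1 K).filter (fun p => g ∣ p)).card : ℝ) ≤ K / G0 := by
    intro g hg
    rw [mem_filter, Nat.mem_divisors] at hg
    have h4 : ((Icc 1 K).filter (fun p => g ∣ p)).card = K / g := by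
      have := Nat.Ioc_filter_dvd_card_eq_div K g
      rw [← this]
      congr 1
    rw [h4]
    calc ((K / g : ℕ) : ℝ) ≤ K / g := Nat.cast_div_le
      _ ≤ K / G0 := by
        apply div_le_div_of_nonneg_left (Nat.cast_nonneg _) hG hg.2.le
  refine (sum_le_sum h3).trans ?_
  rw [sum_const, nsmul_eq_mul]
  apply mul_le_mul_of_nonneg_right _ (by positivity)
  exact_mod_cast card_filter_le _ _

/-- members of a progression in `[1, x]` -/
lemma card_ap (x k : ℕ) (hk : 1 ≤ k) (hkx : k ≤ x) (a : ℤ) :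
    (((Icc (1 : ℤ) x).filter (fun n => (k : ℤ) ∣ n - a)).card : ℝ) ≤ 2 * x / k := by
  classical
  have hk0 : (0 : ℤ) < k := by exact_mod_cast hk
  have h1 := Int.Ioc_filter_modEq_card 0 (x : ℤ) hk0 a
  have h2 : (Icc (1 : ℤ) x).filter (fun n => (k : ℤ) ∣ n - a) =
      (Ioc (0 : ℤ) x).filter (fun n => n ≡ a [ZMOD k]) := by
    ext n
    simp only [mem_filter, mem_Icc, mem_Ioc]
    rw [Int.modEq_comm, Int.modEq_iff_dvd]
    constructor <;> rintro ⟨h3, h4⟩ <;> exact ⟨⟨by omega, h3.2⟩, h4⟩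
  rw [h2]
  obtain ⟨m, hm⟩ : ∃ m : ℕ, m = x / k := ⟨_, rfl⟩
  have h3 : ((((Ioc (0 : ℤ) x).filter (fun n => n ≡ a [ZMOD k])).card : ℤ) : ℝ) ≤ m + 1 := by
    rw [h1]
    have hkr : (0 : ℚ) < k := by exact_mod_cast hk
    have h4 : ⌊((x : ℤ) - a) / ((k : ℤ) : ℚ)⌋ - ⌊((0 : ℤ) - a) / ((k : ℤ) : ℚ)⌋ ≤ (m : ℤ) + 1 := by
      have h5 : (⌊((x : ℤ) - a) / ((k : ℤ) : ℚ)⌋ : ℤ) - ⌊((0 : ℤ) - a) / ((k : ℤ) : ℚ)⌋ < (m : ℤ) + 2 := by
        have h6 : (⌊((x : ℤ) - a) / ((k : ℤ) : ℚ)⌋ : ℚ) ≤ ((x : ℤ) - a) / ((k : ℤ) : ℚ) := Int.floor_le _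
        have h7 : (((0 : ℤ) - a) / ((k : ℤ) : ℚ) : ℚ) < ⌊((0 : ℤ) - a) / ((k : ℤ) : ℚ)⌋ + 1 :=
          Int.lt_floor_add_one _
        have h8 : (x : ℚ) / k < (m : ℚ) + 1 := by
          rw [div_lt_iff₀ hkr, hm]
          have := Nat.lt_mul_div_succ x (show 0 < k by omega)
          have h9 : (x : ℚ) < k * ((x / k : ℕ) + 1) := by exact_mod_cast this
          linarith
        have h10 : (((x : ℤ) - a) / ((k : ℤ) : ℚ) : ℚ) - (((0 : ℤ) - a) / ((k : ℤ) : ℚ)) = (x : ℚ) / k := by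
          push_cast
          ring
        have h11 : ((⌊((x : ℤ) - a) / ((k : ℤ) : ℚ)⌋ - ⌊((0 : ℤ) - a) / ((k : ℤ) : ℚ)⌋ : ℤ) : ℚ) <
            (((m : ℤ) + 2 : ℤ) : ℚ) := by
          push_cast at h6 h7 h8 h10 ⊢
          linarith
        exact_mod_cast h11
      omega
    have h12 : max (⌊((x : ℤ) - a) / ((k : ℤ) : ℚ)⌋ - ⌊((0 : ℤ) - a) / ((k : ℤ) : ℚ)⌋) 0 ≤
        (m : ℤ) + 1 := max_le h4 (by positivity)
    have h13 : ((max (⌊((x : ℤ) - a) / ((k : ℤ) : ℚ)⌋ - ⌊((0 : ℤ) - a) / ((k : ℤ) : ℚ)⌋) 0 : ℤ) : ℝ) ≤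
        (((m : ℤ) + 1 : ℤ) : ℝ) := by exact_mod_cast h12
    refine le_trans ?_ (h13.trans ?_)
    · push_cast
      rfl
    · push_cast
      rfl
  have hk1 : (0 : ℝ) < k := by exact_mod_cast hk
  have h5 : (1 : ℝ) ≤ x / k := by
    rw [le_div_iff₀ hk1, one_mul]; exact_mod_cast hkx
  have h6 : (((Ioc (0 : ℤ) x).filter (fun n => n ≡ a [ZMOD k])).card : ℝ) ≤ m + 1 := by
    exact_mod_cast h3
  have h7 : (m : ℝ) ≤ x / k := by rw [hm]; exact Nat.cast_div_le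
  rw [mul_div_assoc]
  linarith

end Pool.Agent.Y856.Sq
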