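import Pool.Agent.Y856.Sq.Off1

/-!
The off-diagonal terms: sums over `k2` for fixed `k1`, `h`, `p`.
-/

namespace Pool.Agent.Y856.Sq

open Finset
open Pool.Agent.H442R2.EHI

/-- one variable sum -/
noncomputable def GG (f : ℤ → ℂ) (x : ℕ) (c : ℤ) (k1 k2 h p R0 R1 : ℕ) : ℂ :=
  ∑ r ∈ (Ioc R0 R1).filter (fun r => h ∣ r ∧ 2 ∣ p + r), ZZ f x c k1 k2 (p : ℤ) (r : ℤ)

lemma off_le (hp : S_pairs) (f : ℤ → ℂ) (x : ℕ) (c : ℤ) (k1 k2 I0 I1 : ℕ) (hk1 : 1 ≤ k1)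
    (hI : I0 ≤ I1) :
    ‖Off f x c k1 k2 I0 I1‖ ≤ (k1.divisors.card : ℝ) * ∑ h ∈ k1.divisors,
      ∑ p ∈ (Icc 1 (2 * I1)).filter (fun p => k1 ∣ p * h ∧ k1 ≤ Nat.gcd p k1 ^ 2),
        (‖GG f x c k1 k2 h p (2 * I0 + p) (2 * I1 - p)‖ +
         ‖GG f x c k1 k2 h p 0 (min (p - 2 * I0 - 1) (2 * I1 - p))‖) := by
  have h := hp (fun u v => ZZ f x c k1 k2 (u : ℤ) (v : ℤ)) k1 I0 I1 hk1 hI
  unfold Off GG
  refine h.trans (le_of_eq ?_)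
  congr 1
  refine sum_congr rfl fun h _ => sum_congr rfl fun p _ => ?_
  congr 1
  congr 1
  exact sum_congr rfl fun r _ => ZZ_symm _ _ _ _ _ _ _

section one

variable (f : ℤ → ℂ) (x : ℕ) (hf : ∀ n : ℤ, f n ≠ 0 → 1 ≤ n ∧ n ≤ x) (c : ℤ) (hc : |c| ≤ x)
  (J : ℕ) (hJ : J ^ 2 ≤ 2 * x) (k1 : ℕ) (hk1 : 1 ≤ k1) (S : Finset ℕ) (B : ℝ)
  (hB : ∀ a : ℤ, |a| ≤ 4 * x → ∑ k2 ∈ S, WW f x 2 k2 a ≤ B)

include hB in
lemma B_nonneg : 0 ≤ B := by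
  have := hB 0 (by simp)
  exact (sum_nonneg fun _ _ => WW_nonneg _ _ _ _ _).trans this

include hf hc hJ hk1 hB in
lemma ZZ_sum_le (h p t : ℕ) (hph : k1 ∣ p * h) (ht : 2 ∣ p + h * t) (hpt : p + h * t ≤ 2 * J) :
    ∑ k2 ∈ S, ‖ZZ f x c k1 k2 (p : ℤ) ((h * t : ℕ) : ℤ)‖ ≤ B := by
  have h1 : ∀ k2 ∈ S, ‖ZZ f x c k1 k2 (p : ℤ) ((h * t : ℕ) : ℤ)‖ ≤
      (WW f x 2 k2 (c + (((p : ℤ) + ((h * t : ℕ) : ℤ)) / 2) ^ 2) +
      WW f x 2 k2 (c + ((((h * t : ℕ) : ℤ) - p) / 2) ^ 2)) / 2 := by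
    intro k2 _
    apply ZZ_le f x hf c k1 k2 hk1
    · exact_mod_cast ht
    · have : k1 ∣ p * (h * t) := by rw [← mul_assoc]; exact Dvd.dvd.mul_right hph t
      exact_mod_cast this
  refine (sum_le_sum h1).trans ?_
  rw [← sum_div, sum_add_distrib]
  have hJz : (J : ℤ) ^ 2 ≤ 2 * x := by exact_mod_cast hJ
  have hptz : (p : ℤ) + ((h * t : ℕ) : ℤ) ≤ 2 * J := by exact_mod_cast hpt
  have hbd : ∀ w : ℤ, -(J : ℤ) ≤ w → w ≤ J → |c + w ^ 2| ≤ 4 * x := by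
    intro w hw1 hw2
    have hw : w ^ 2 ≤ (J : ℤ) ^ 2 := by nlinarith
    have := abs_le.mp hc
    rw [abs_le]
    constructor <;> nlinarith [sq_nonneg w]
  have hp0 : (0 : ℤ) ≤ p := by positivity
  have hr0 : (0 : ℤ) ≤ ((h * t : ℕ) : ℤ) := by positivity
  have e1 := hB (c + (((p : ℤ) + ((h * t : ℕ) : ℤ)) / 2) ^ 2) (hbd _ (by omega) (by omega))
  have e2 := hB (c + ((((h * t : ℕ) : ℤ) - p) / 2) ^ 2) (hbd _ (by omega) (by omega))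
  linarith

include hf hc hJ hk1 hB in
lemma GG_sum_le (h p R0 R1 : ℕ) (hh : 1 ≤ h) (hph : k1 ∣ p * h) (hR : R1 + p ≤ 2 * J) :
    ∑ k2 ∈ S, ‖GG f x c k1 k2 h p R0 R1‖ ≤ 2 * J / h * B := by
  have hB0 := B_nonneg f x S B hB
  have h1 : ∀ k2 ∈ S, ‖GG f x c k1 k2 h p R0 R1‖ ≤
      ∑ t ∈ (Ioc (R0 / h) (R1 / h)).filter (fun t => 2 ∣ p + h * t),
        ‖ZZ f x c k1 k2 (p : ℤ) ((h * t : ℕ) : ℤ)‖ := by
    intro k2 _
    unfold GG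
    rw [sum_mult h R0 R1 hh p (fun r => ZZ f x c k1 k2 (p : ℤ) (r : ℤ))]
    exact norm_sum_le _ _
  refine (sum_le_sum h1).trans ?_
  rw [sum_comm]
  have h2 : ∀ t ∈ (Ioc (R0 / h) (R1 / h)).filter (fun t => 2 ∣ p + h * t),
      ∑ k2 ∈ S, ‖ZZ f x c k1 k2 (p : ℤ) ((h * t : ℕ) : ℤ)‖ ≤ B := by
    intro t ht
    rw [mem_filter, mem_Ioc] at ht
    have h3 : t * h ≤ R1 := (Nat.le_div_iff_mul_le (by omega)).1 ht.1.2
    exact ZZ_sum_le f x hf c hc J hJ k1 hk1 S B hB h p t hph ht.2 (by rw [mul_comm h t]; omega)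
  refine (sum_le_sum h2).trans ?_
  rw [sum_const, nsmul_eq_mul]
  apply mul_le_mul_of_nonneg_right _ hB0
  have h4 : ((Ioc (R0 / h) (R1 / h)).filter (fun t => 2 ∣ p + h * t)).card ≤ R1 / h := by
    refine (card_filter_le _ _).trans ?_
    rw [Nat.card_Ioc]; exact Nat.sub_le _ _
  have hh0 : (0 : ℝ) < h := by exact_mod_cast hh
  calc (((Ioc (R0 / h) (R1 / h)).filter (fun t => 2 ∣ p + h * t)).card : ℝ) ≤ ((R1 / h : ℕ) : ℝ) := by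
        exact_mod_cast h4
    _ ≤ R1 / h := Nat.cast_div_le
    _ ≤ 2 * J / h := by
        apply div_le_div_of_nonneg_right _ hh0.le
        have : R1 ≤ 2 * J := by omega
        exact_mod_cast this

include hf hc hJ hk1 hB in
lemma GG_good (hb : S_block) (K1 K L0 h p R0 R1 : ℕ) (G0 : ℝ) (hh : h ∣ k1)
    (hS : ∀ k ∈ S, K1 < k ∧ k ≤ K ∧ (Nat.gcd h k : ℝ) ≤ G0) (hK1 : 1 ≤ K1) (hk1K : k1 ≤ K)
    (hKx : K ≤ x) (hL0 : 1 ≤ L0) (hΔ : 2 * p * K * K * L0 ≤ x) (hR : R1 + k1 / h * p ≤ 2 * J) :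
    ∑ k2 ∈ S, ‖GG f x c k1 k2 h (k1 / h * p) R0 R1‖ ≤ 2 * K * L0 * B +
      (J / (h * K1 * L0)) * ((40 * x : ℝ) ^ (1 / 2 : ℝ) * G0 * mom f x 4 ^ (1 / 4 : ℝ) *
        mom f x 6 ^ (1 / 8 : ℝ) * (L0 : ℝ) ^ (3 / 4 : ℝ)) *
      ∑ k2 ∈ S, (k2.divisors.card : ℝ) ^ (1 / 2 : ℝ) * (∑ y ∈ Icc (-(x : ℤ)) (2 * x),
          ‖AA f (2 * (p : ℤ) * ((k1 : ℤ) - k2) * k2) L0 y‖ ^ 2) ^ (1 / 8 : ℝ) := by
  classical
  have hB0 := B_nonneg f x S B hB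
  have hh1 : 1 ≤ h := Nat.pos_of_dvd_of_pos hh hk1
  have hh0 : (0 : ℝ) < h := by exact_mod_cast hh1
  have hK10 : (0 : ℝ) < K1 := by exact_mod_cast hK1
  have hL00 : (0 : ℝ) < L0 := by exact_mod_cast hL0
  have hmom4 : 0 ≤ mom f x 4 := sum_nonneg fun _ _ => by positivity
  have hmom6 : 0 ≤ mom f x 6 := sum_nonneg fun _ _ => by positivity
  set P0 := k1 / h * p with hP0
  have hph : k1 ∣ P0 * h := by
    rw [hP0]
    exact ⟨p, by rw [mul_right_comm, Nat.div_mul_cancel hh]⟩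
  set T0 := R0 / h with hT0
  set T1 := R1 / h with hT1
  set V := (40 * x : ℝ) ^ (1 / 2 : ℝ) * G0 * mom f x 4 ^ (1 / 4 : ℝ) *
        mom f x 6 ^ (1 / 8 : ℝ) * (L0 : ℝ) ^ (3 / 4 : ℝ) with hV
  -- pointwise
  have h1 : ∀ k2 ∈ S, ‖GG f x c k1 k2 h P0 R0 R1‖ ≤
      ∑ t ∈ (Ioc T0 T1).filter (fun t => T1 < t + 2 * K * L0 ∧ 2 ∣ P0 + h * t),
        ‖ZZ f x c k1 k2 (P0 : ℤ) ((h * t : ℕ) : ℤ)‖ +
      (J / (h * K1 * L0)) * V * ((k2.divisors.card : ℝ) ^ (1 / 2 : ℝ) *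
        (∑ y ∈ Icc (-(x : ℤ)) (2 * x),
          ‖AA f (2 * (p : ℤ) * ((k1 : ℤ) - k2) * k2) L0 y‖ ^ 2) ^ (1 / 8 : ℝ)) := by
    intro k2 hk2
    obtain ⟨hk21, hk22, hk23⟩ := hS k2 hk2
    have hk20 : (0 : ℝ) < k2 := by exact_mod_cast (by omega : 0 < k2)
    have hG0 : 0 ≤ G0 := le_trans (Nat.cast_nonneg _) hk23
    have hΔ' : |2 * (p : ℤ) * ((k1 : ℤ) - k2) * k2| * L0 ≤ x := by
      rw [abs_mul, abs_mul, abs_of_nonneg (by positivity : (0 : ℤ) ≤ 2 * p),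
        abs_of_nonneg (by positivity : (0 : ℤ) ≤ k2)]
      have e1 : |(k1 : ℤ) - k2| ≤ K := by rw [abs_le]; constructor <;> omega
      have e2 : (2 * p * K * K * L0 : ℤ) ≤ x := by exact_mod_cast hΔ
      refine le_trans ?_ e2
      have e3 : (k2 : ℤ) ≤ K := by exact_mod_cast hk22
      gcongr
    have h2 := hb f x k1 k2 h p T0 T1 L0 c hf hk1 (by omega) (by omega) hh1 hh hL0 hΔ'
    have h3 : GG f x c k1 k2 h P0 R0 R1 = ∑ t ∈ (Ioc T0 T1).filter (fun t => 2 ∣ P0 + h * t),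
        ZZ f x c k1 k2 (P0 : ℤ) ((h * t : ℕ) : ℤ) := by
      unfold GG
      rw [sum_mult h R0 R1 hh1 P0 (fun r => ZZ f x c k1 k2 (P0 : ℤ) (r : ℤ))]
    rw [h3]
    refine h2.trans (add_le_add ?_ ?_)
    · apply sum_le_sum_of_subset_of_nonneg
      · intro t ht
        rw [mem_filter] at ht ⊢
        refine ⟨ht.1, ?_, ht.2.2⟩
        have : 2 * k2 * L0 ≤ 2 * K * L0 := by gcongr
        omega
      · intros; positivity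
    · set Y := ∑ y ∈ Icc (-(x : ℤ)) (2 * x),
          ‖AA f (2 * (p : ℤ) * ((k1 : ℤ) - k2) * k2) L0 y‖ ^ 2 with hY
      have hY0 : 0 ≤ Y := sum_nonneg fun _ _ => by positivity
      have e4 : ((T1 - T0 : ℕ) : ℝ) / (2 * k2 * L0) ≤ J / (h * K1 * L0) := by
        have e5 : ((T1 - T0 : ℕ) : ℝ) ≤ 2 * J / h := by
          calc ((T1 - T0 : ℕ) : ℝ) ≤ (T1 : ℝ) := by exact_mod_cast Nat.sub_le _ _
            _ ≤ R1 / h := by rw [hT1]; exact Nat.cast_div_le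
            _ ≤ 2 * J / h := by
              apply div_le_div_of_nonneg_right _ hh0.le
              have : R1 ≤ 2 * J := by omega
              exact_mod_cast this
        have e6 : (K1 : ℝ) ≤ k2 := by exact_mod_cast hk21.le
        calc ((T1 - T0 : ℕ) : ℝ) / (2 * k2 * L0) ≤ (2 * J / h) / (2 * K1 * L0) := by gcongr
          _ = J / (h * K1 * L0) := by field_simp
      have e7 : (40 * x * (Nat.gcd h k2 : ℝ) ^ 2 * k2.divisors.card) ^ (1 / 2 : ℝ) ≤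
          (40 * x : ℝ) ^ (1 / 2 : ℝ) * G0 * (k2.divisors.card : ℝ) ^ (1 / 2 : ℝ) := by
        calc (40 * x * (Nat.gcd h k2 : ℝ) ^ 2 * k2.divisors.card) ^ (1 / 2 : ℝ)
            ≤ (40 * x * G0 ^ 2 * k2.divisors.card : ℝ) ^ (1 / 2 : ℝ) := by gcongr
          _ = (40 * x : ℝ) ^ (1 / 2 : ℝ) * G0 * (k2.divisors.card : ℝ) ^ (1 / 2 : ℝ) := by
            rw [Real.mul_rpow (by positivity) (by positivity),
              Real.mul_rpow (by positivity) (by positivity), ← Real.sqrt_eq_rpow (G0 ^ 2),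
              Real.sqrt_sq hG0]
      calc ((T1 - T0 : ℕ) : ℝ) / (2 * k2 * L0) *
            ((40 * x * (Nat.gcd h k2 : ℝ) ^ 2 * k2.divisors.card) ^ (1 / 2 : ℝ) *
            mom f x 4 ^ (1 / 4 : ℝ) * mom f x 6 ^ (1 / 8 : ℝ) * (L0 : ℝ) ^ (3 / 4 : ℝ) *
            Y ^ (1 / 8 : ℝ))
          ≤ J / (h * K1 * L0) * (((40 * x : ℝ) ^ (1 / 2 : ℝ) * G0 *
            (k2.divisors.card : ℝ) ^ (1 / 2 : ℝ)) *
            mom f x 4 ^ (1 / 4 : ℝ) * mom f x 6 ^ (1 / 8 : ℝ) * (L0 : ℝ) ^ (3 / 4 : ℝ) *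
            Y ^ (1 / 8 : ℝ)) := by gcongr
        _ = _ := by rw [hV]; ring
  refine (sum_le_sum h1).trans ?_
  rw [sum_add_distrib, ← mul_sum]
  gcongr
  rw [sum_comm]
  have h2 : ∀ t ∈ (Ioc T0 T1).filter (fun t => T1 < t + 2 * K * L0 ∧ 2 ∣ P0 + h * t),
      ∑ k2 ∈ S, ‖ZZ f x c k1 k2 (P0 : ℤ) ((h * t : ℕ) : ℤ)‖ ≤ B := by
    intro t ht
    rw [mem_filter, mem_Ioc] at ht
    have h3 : t * h ≤ R1 := (Nat.le_div_iff_mul_le (by omega)).1 ht.1.2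
    exact ZZ_sum_le f x hf c hc J hJ k1 hk1 S B hB h P0 t hph ht.2.2 (by rw [mul_comm h t]; omega)
  refine (sum_le_sum h2).trans ?_
  rw [sum_const, nsmul_eq_mul]
  apply mul_le_mul_of_nonneg_right _ hB0
  have h4 : ((Ioc T0 T1).filter (fun t => T1 < t + 2 * K * L0 ∧ 2 ∣ P0 + h * t)).card ≤
      2 * K * L0 := by
    have h5 : (Ioc T0 T1).filter (fun t => T1 < t + 2 * K * L0 ∧ 2 ∣ P0 + h * t) ⊆
        Ioc (T1 - 2 * K * L0) T1 := by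
      intro t ht
      rw [mem_filter, mem_Ioc] at ht
      rw [mem_Ioc]
      have ht0 : 0 < t := lt_of_le_of_lt (Nat.zero_le _) ht.1.1
      have ht1 := ht.2.1
      refine ⟨?_, ht.1.2⟩
      omega
    refine (card_le_card h5).trans ?_
    rw [Nat.card_Ioc]; omega
  exact_mod_cast h4

end one

end Pool.Agent.Y856.Sq
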