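import Pool.Agent.Y856.Sq.Off2

/-!
The off-diagonal terms: sums over `k2` and `p` for fixed `k1` and `h`.
-/

namespace Pool.Agent.Y856.Sq

open Finset
open Pool.Agent.H442R2.EHI

lemma sum_half {ι : Type*} (Z : Finset ι) (b : ι → ℝ) (hb : ∀ z ∈ Z, 0 ≤ b z) (r : ℝ) :
    ∑ z ∈ Z, b z ^ (r / 2) ≤ (Z.card : ℝ) ^ (1 / 2 : ℝ) * (∑ z ∈ Z, b z ^ r) ^ (1 / 2 : ℝ) := by
  have h := Real.sum_mul_le_sqrt_mul_sqrt Z (fun _ => (1 : ℝ)) (fun z => b z ^ (r / 2))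
  simp only [one_mul, one_pow, sum_const, nsmul_eq_mul, mul_one] at h
  rw [Real.sqrt_eq_rpow, Real.sqrt_eq_rpow] at h
  refine h.trans (le_of_eq ?_)
  congr 2
  refine sum_congr rfl fun z hz => ?_
  rw [← Real.rpow_natCast, ← Real.rpow_mul (hb z hz)]
  congr 1
  push_cast
  ring

lemma holder8 {ι : Type*} (Z : Finset ι) (a b : ι → ℝ) (ha : ∀ z ∈ Z, 0 ≤ a z)
    (hb : ∀ z ∈ Z, 0 ≤ b z) :
    ∑ z ∈ Z, a z ^ (1 / 2 : ℝ) * b z ^ (1 / 8 : ℝ) ≤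
      (∑ z ∈ Z, a z) ^ (1 / 2 : ℝ) * (Z.card : ℝ) ^ (3 / 8 : ℝ) * (∑ z ∈ Z, b z) ^ (1 / 8 : ℝ) := by
  have h := Real.sum_mul_le_sqrt_mul_sqrt Z (fun z => a z ^ (1 / 2 : ℝ)) (fun z => b z ^ (1 / 8 : ℝ))
  rw [Real.sqrt_eq_rpow, Real.sqrt_eq_rpow] at h
  have e1 : ∑ z ∈ Z, (a z ^ (1 / 2 : ℝ)) ^ 2 = ∑ z ∈ Z, a z := by
    refine sum_congr rfl fun z hz => ?_
    rw [← Real.rpow_natCast, ← Real.rpow_mul (ha z hz)]
    norm_num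
  have e2 : ∑ z ∈ Z, (b z ^ (1 / 8 : ℝ)) ^ 2 = ∑ z ∈ Z, b z ^ (1 / 4 : ℝ) := by
    refine sum_congr rfl fun z hz => ?_
    rw [← Real.rpow_natCast, ← Real.rpow_mul (hb z hz)]
    norm_num
  rw [e1, e2] at h
  have h1 := sum_half Z b hb (1 / 2)
  have h2 := sum_half Z b hb 1
  simp only [Real.rpow_one] at h2
  have hA : 0 ≤ ∑ z ∈ Z, a z := sum_nonneg ha
  have hB : 0 ≤ ∑ z ∈ Z, b z := sum_nonneg hb
  have hN : (0 : ℝ) ≤ (Z.card : ℝ) := Nat.cast_nonneg _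
  have h3 : ∑ z ∈ Z, b z ^ (1 / 4 : ℝ) ≤
      (Z.card : ℝ) ^ (3 / 4 : ℝ) * (∑ z ∈ Z, b z) ^ (1 / 4 : ℝ) := by
    have e3 : (1 / 2 / 2 : ℝ) = 1 / 4 := by norm_num
    rw [e3] at h1
    refine h1.trans ?_
    calc (Z.card : ℝ) ^ (1 / 2 : ℝ) * (∑ z ∈ Z, b z ^ (1 / 2 : ℝ)) ^ (1 / 2 : ℝ)
        ≤ (Z.card : ℝ) ^ (1 / 2 : ℝ) *
          ((Z.card : ℝ) ^ (1 / 2 : ℝ) * (∑ z ∈ Z, b z) ^ (1 / 2 : ℝ)) ^ (1 / 2 : ℝ) := by
          apply mul_le_mul_of_nonneg_left _ (by positivity)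
          exact Real.rpow_le_rpow (sum_nonneg fun z hz => Real.rpow_nonneg (hb z hz) _) h2 (by norm_num)
      _ = (Z.card : ℝ) ^ (3 / 4 : ℝ) * (∑ z ∈ Z, b z) ^ (1 / 4 : ℝ) := by
          rw [Real.mul_rpow (by positivity) (by positivity), ← Real.rpow_mul hN,
            ← Real.rpow_mul hB, ← mul_assoc, ← Real.rpow_add_of_nonneg hN (by norm_num) (by norm_num)]
          norm_num
  refine h.trans ?_
  calc (∑ z ∈ Z, a z) ^ (1 / 2 : ℝ) * (∑ z ∈ Z, b z ^ (1 / 4 : ℝ)) ^ (1 / 2 : ℝ)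
      ≤ (∑ z ∈ Z, a z) ^ (1 / 2 : ℝ) *
        ((Z.card : ℝ) ^ (3 / 4 : ℝ) * (∑ z ∈ Z, b z) ^ (1 / 4 : ℝ)) ^ (1 / 2 : ℝ) := by
        apply mul_le_mul_of_nonneg_left _ (by positivity)
        exact Real.rpow_le_rpow (sum_nonneg fun z hz => Real.rpow_nonneg (hb z hz) _) h3 (by norm_num)
    _ = _ := by
        rw [Real.mul_rpow (by positivity) (by positivity), ← Real.rpow_mul hN, ← Real.rpow_mul hB,
          mul_assoc]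
        norm_num

section two

variable (f : ℤ → ℂ) (x : ℕ) (hf : ∀ n : ℤ, f n ≠ 0 → 1 ≤ n ∧ n ≤ x) (c : ℤ) (hc : |c| ≤ x)
  (J : ℕ) (hJ : J ^ 2 ≤ 2 * x) (k1 : ℕ) (hk1 : 1 ≤ k1) (K1 K I0 I1 h : ℕ) (hI1 : I1 ≤ J)
  (hh : h ∣ k1)

/-- the `p`-sum for fixed `k1`, `h` -/
noncomputable def TT (f : ℤ → ℂ) (x : ℕ) (c : ℤ) (k1 K1 K I0 I1 h : ℕ) : ℝ :=
  ∑ k2 ∈ (Ioc K1 K).filter (fun k2 => k2 ≠ k1),
    ∑ p ∈ (Icc 1 (2 * I1)).filter (fun p => k1 ∣ p * h ∧ k1 ≤ Nat.gcd p k1 ^ 2),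
        (‖GG f x c k1 k2 h p (2 * I0 + p) (2 * I1 - p)‖ +
         ‖GG f x c k1 k2 h p 0 (min (p - 2 * I0 - 1) (2 * I1 - p))‖)

include hf hc hJ hk1 hI1 hh in
/-- trivial bound, used for large `h` -/
lemma TT_large (B : ℝ) (hB : ∀ a : ℤ, |a| ≤ 4 * x → ∑ k2 ∈ Ioc K1 K, WW f x 2 k2 a ≤ B) :
    TT f x c k1 K1 K I0 I1 h ≤
      (k1.divisors.card * (2 * J / √(k1 : ℝ))) * (4 * J / h * B) := by
  classical
  have hB0 := B_nonneg f x (Ioc K1 K) B hB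
  have hh1 : 1 ≤ h := Nat.pos_of_dvd_of_pos hh hk1
  have hB' : ∀ a : ℤ, |a| ≤ 4 * x →
      ∑ k2 ∈ (Ioc K1 K).filter (fun k2 => k2 ≠ k1), WW f x 2 k2 a ≤ B := by
    intro a ha
    refine (sum_le_sum_of_subset_of_nonneg (filter_subset _ _) ?_).trans (hB a ha)
    intros; exact WW_nonneg _ _ _ _ _
  unfold TT
  rw [sum_comm]
  have h1 : ∀ p ∈ (Icc 1 (2 * I1)).filter (fun p => k1 ∣ p * h ∧ k1 ≤ Nat.gcd p k1 ^ 2),
      ∑ k2 ∈ (Ioc K1 K).filter (fun k2 => k2 ≠ k1),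
        (‖GG f x c k1 k2 h p (2 * I0 + p) (2 * I1 - p)‖ +
         ‖GG f x c k1 k2 h p 0 (min (p - 2 * I0 - 1) (2 * I1 - p))‖) ≤ 4 * J / h * B := by
    intro p hp
    rw [mem_filter, mem_Icc] at hp
    rw [sum_add_distrib]
    have e1 := GG_sum_le f x hf c hc J hJ k1 hk1 _ B hB' h p (2 * I0 + p) (2 * I1 - p) hh1 hp.2.1
      (by omega)
    have e2 := GG_sum_le f x hf c hc J hJ k1 hk1 _ B hB' h p 0 (min (p - 2 * I0 - 1) (2 * I1 - p))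
      hh1 hp.2.1 (by
        have := min_le_right (p - 2 * I0 - 1) (2 * I1 - p)
        omega)
    have e3 : (4 * J / h * B : ℝ) = 2 * J / h * B + 2 * J / h * B := by ring
    rw [e3]
    exact add_le_add e1 e2
  refine (sum_le_sum h1).trans ?_
  rw [sum_const, nsmul_eq_mul]
  apply mul_le_mul_of_nonneg_right _ (by positivity)
  have h2 := card_p k1 (2 * I1) hk1
  have h3 : (((Icc 1 (2 * I1)).filter (fun p => k1 ∣ p * h ∧ k1 ≤ Nat.gcd p k1 ^ 2)).card : ℝ) ≤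
      (((Icc 1 (2 * I1)).filter (fun p => k1 ≤ Nat.gcd p k1 ^ 2)).card : ℝ) := by
    have : ((Icc 1 (2 * I1)).filter (fun p => k1 ∣ p * h ∧ k1 ≤ Nat.gcd p k1 ^ 2)).card ≤
      ((Icc 1 (2 * I1)).filter (fun p => k1 ≤ Nat.gcd p k1 ^ 2)).card := by
      apply card_le_card
      intro p hp
      rw [mem_filter] at hp ⊢
      exact ⟨hp.1, hp.2.2⟩
    exact_mod_cast this
  refine (h3.trans h2).trans ?_
  have hs0 : 0 < √(k1 : ℝ) := Real.sqrt_pos.2 (by exact_mod_cast hk1)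
  have : ((2 * I1 : ℕ) : ℝ) ≤ 2 * J := by
    push_cast
    have : (I1 : ℝ) ≤ J := by exact_mod_cast hI1
    linarith
  gcongr

include hf hc hJ hk1 hI1 hh in
/-- small `h` -/
lemma TT_small (hb : S_block) (hK1 : 1 ≤ K1) (hk1K : k1 ≤ K) (hKx : K ≤ x) (L0 : ℕ)
    (hL0 : 1 ≤ L0) (hΔ : 2 * (2 * J * h / k1) * K * K * L0 ≤ x) (G0 B2 B3 : ℝ)
    (hB2 : ∀ a : ℤ, |a| ≤ 4 * x →
      ∑ k2 ∈ (Ioc K1 K).filter (fun k2 => G0 < (Nat.gcd h k2 : ℝ)), WW f x 2 k2 a ≤ B2)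
    (hB3 : ∀ a : ℤ, |a| ≤ 4 * x → ∑ k2 ∈ Ioc K1 K, WW f x 2 k2 a ≤ B3) :
    TT f x c k1 K1 K I0 I1 h ≤
      ((2 * J * h / k1 : ℕ) : ℝ) * (4 * J / h * B2 + 4 * K * L0 * B3) +
      2 * ((J / (h * K1 * L0)) * ((40 * x : ℝ) ^ (1 / 2 : ℝ) * |G0| * mom f x 4 ^ (1 / 4 : ℝ) *
        mom f x 6 ^ (1 / 8 : ℝ) * (L0 : ℝ) ^ (3 / 4 : ℝ))) *
      ∑ p ∈ Icc 1 (2 * J * h / k1), ∑ k2 ∈ Ioc K1 K,
        (k2.divisors.card : ℝ) ^ (1 / 2 : ℝ) * (∑ y ∈ Icc (-(x : ℤ)) (2 * x),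
          ‖AA f (2 * (p : ℤ) * ((k1 : ℤ) - k2) * k2) L0 y‖ ^ 2) ^ (1 / 8 : ℝ) := by
  classical
  have hB30 := B_nonneg f x (Ioc K1 K) B3 hB3
  have hB20 := B_nonneg f x _ B2 hB2
  have hh1 : 1 ≤ h := Nat.pos_of_dvd_of_pos hh hk1
  have hh0 : (0 : ℝ) < h := by exact_mod_cast hh1
  have hmom4 : 0 ≤ mom f x 4 := sum_nonneg fun _ _ => by positivity
  have hmom6 : 0 ≤ mom f x 6 := sum_nonneg fun _ _ => by positivity
  set P := 2 * J * h / k1 with hP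
  set W := (J / (h * K1 * L0)) * ((40 * x : ℝ) ^ (1 / 2 : ℝ) * |G0| * mom f x 4 ^ (1 / 4 : ℝ) *
        mom f x 6 ^ (1 / 8 : ℝ) * (L0 : ℝ) ^ (3 / 4 : ℝ)) with hW
  have hW0 : 0 ≤ W := by positivity
  clear_value W
  obtain ⟨SS, hSS⟩ : ∃ SS : ℕ → ℝ, ∀ q : ℕ, SS q = ∑ k2 ∈ Ioc K1 K,
        (k2.divisors.card : ℝ) ^ (1 / 2 : ℝ) * (∑ y ∈ Icc (-(x : ℤ)) (2 * x),
          ‖AA f (2 * (q : ℤ) * ((k1 : ℤ) - k2) * k2) L0 y‖ ^ 2) ^ (1 / 8 : ℝ) :=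
    ⟨_, fun _ => rfl⟩
  have hSS0 : ∀ q, 0 ≤ SS q := by
    intro q
    rw [hSS]
    exact sum_nonneg fun _ _ => by positivity
  rw [← sum_congr rfl (fun q _ => hSS q)]
  -- a bound for each `p = (k1 / h) * q`
  have key : ∀ q ∈ Icc 1 P, ∀ R0 R1 : ℕ, R1 + k1 / h * q ≤ 2 * J →
      ∑ k2 ∈ (Ioc K1 K).filter (fun k2 => k2 ≠ k1), ‖GG f x c k1 k2 h (k1 / h * q) R0 R1‖ ≤
      2 * J / h * B2 + 2 * K * L0 * B3 + W * SS q := by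
    intro q hq R0 R1 hR
    rw [mem_Icc] at hq
    have hph : k1 ∣ k1 / h * q * h := ⟨q, by rw [mul_right_comm, Nat.div_mul_cancel hh]⟩
    have e0 : ∑ k2 ∈ (Ioc K1 K).filter (fun k2 => k2 ≠ k1), ‖GG f x c k1 k2 h (k1 / h * q) R0 R1‖ ≤
        ∑ k2 ∈ Ioc K1 K, ‖GG f x c k1 k2 h (k1 / h * q) R0 R1‖ :=
      sum_le_sum_of_subset_of_nonneg (filter_subset _ _) (fun _ _ _ => norm_nonneg _)
    refine e0.trans ?_
    rw [← sum_filter_add_sum_filter_not (Ioc K1 K) (fun k2 => G0 < (Nat.gcd h k2 : ℝ))]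
    have e1 := GG_sum_le f x hf c hc J hJ k1 hk1 _ B2 hB2 h (k1 / h * q) R0 R1 hh1 hph hR
    have hB3' : ∀ a : ℤ, |a| ≤ 4 * x →
        ∑ k2 ∈ (Ioc K1 K).filter (fun k2 => ¬ G0 < (Nat.gcd h k2 : ℝ)), WW f x 2 k2 a ≤ B3 := by
      intro a ha
      refine (sum_le_sum_of_subset_of_nonneg (filter_subset _ _) ?_).trans (hB3 a ha)
      intros; exact WW_nonneg _ _ _ _ _
    have hΔ' : 2 * q * K * K * L0 ≤ x := by
      refine le_trans ?_ hΔ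
      have := hq.2
      gcongr
    have e2 := GG_good f x hf c hc J hJ k1 hk1 _ B3 hB3' hb K1 K L0 h q R0 R1 |G0| hh (by
        intro k hk
        rw [mem_filter, mem_Ioc, not_lt] at hk
        exact ⟨hk.1.1, hk.1.2, hk.2.trans (le_abs_self _)⟩) hK1 hk1K hKx hL0 hΔ' hR
    rw [← hW] at e2
    have e3 : ∑ k2 ∈ (Ioc K1 K).filter (fun k2 => ¬ G0 < (Nat.gcd h k2 : ℝ)),
        (k2.divisors.card : ℝ) ^ (1 / 2 : ℝ) * (∑ y ∈ Icc (-(x : ℤ)) (2 * x),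
          ‖AA f (2 * (q : ℤ) * ((k1 : ℤ) - k2) * k2) L0 y‖ ^ 2) ^ (1 / 8 : ℝ) ≤ SS q := by
      rw [hSS]
      apply sum_le_sum_of_subset_of_nonneg (filter_subset _ _)
      intros; positivity
    have e4 := mul_le_mul_of_nonneg_left e3 hW0
    refine (add_le_add e1 (e2.trans (add_le_add le_rfl e4))).trans (le_of_eq ?_)
    rw [add_assoc]
  unfold TT
  rw [sum_comm]
  have h1 := sum_p k1 h I1 J hk1 hh hI1 (fun p : ℕ => ∑ k2 ∈ (Ioc K1 K).filter (fun k2 => k2 ≠ k1),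
        (‖GG f x c k1 k2 h p (2 * I0 + p) (2 * I1 - p)‖ +
         ‖GG f x c k1 k2 h p 0 (min (p - 2 * I0 - 1) (2 * I1 - p))‖))
    (fun p => sum_nonneg fun _ _ => by positivity)
  refine h1.trans ?_
  have h2 : ∀ q ∈ Icc 1 P, (if k1 / h * q ≤ 2 * I1 then
      ∑ k2 ∈ (Ioc K1 K).filter (fun k2 => k2 ≠ k1),
        (‖GG f x c k1 k2 h (k1 / h * q) (2 * I0 + k1 / h * q) (2 * I1 - k1 / h * q)‖ +
         ‖GG f x c k1 k2 h (k1 / h * q) 0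
           (min (k1 / h * q - 2 * I0 - 1) (2 * I1 - k1 / h * q))‖) else 0) ≤
      (4 * J / h * B2 + 4 * K * L0 * B3) + 2 * W * SS q := by
    intro q hq
    have hq0 := hSS0 q
    split_ifs with hq2
    · rw [sum_add_distrib]
      have e1 := key q hq (2 * I0 + k1 / h * q) (2 * I1 - k1 / h * q) (by omega)
      have e2 := key q hq 0 (min (k1 / h * q - 2 * I0 - 1) (2 * I1 - k1 / h * q)) (by
        have := min_le_right (k1 / h * q - 2 * I0 - 1) (2 * I1 - k1 / h * q)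
        omega)
      have e5 : ∀ (a b c' d S1 S2 : ℝ), S1 ≤ a / 2 + c' / 2 + b * d → S2 ≤ a / 2 + c' / 2 + b * d →
          S1 + S2 ≤ (a + c') + 2 * b * d := by
        intro a b c' d S1 S2 h1 h2
        linarith
      apply e5
      · refine e1.trans (le_of_eq ?_)
        congr 1
        ring
      · refine e2.trans (le_of_eq ?_)
        congr 1
        ring
    · positivity
  refine (sum_le_sum h2).trans ?_
  rw [sum_add_distrib, sum_const, nsmul_eq_mul, ← mul_sum, Nat.card_Icc, Nat.add_sub_cancel]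

end two

end Pool.Agent.Y856.Sq
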