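import Pool.Agent.Y856.Sq.Off3

/-!
The off-diagonal terms: numerical estimates.
-/

namespace Pool.Agent.Y856.Sq

open Finset
open Pool.Agent.H442R2.EHI

lemma bad_le (f : ℤ → ℂ) (x K1 K h : ℕ) (G0 B4 : ℝ) (a : ℤ) (hK1 : 1 ≤ K1) (hKx : K ≤ x)
    (hG0 : 0 < G0) (hh : 1 ≤ h) (hB4 : ∑ k ∈ Icc 1 K, WW f x 4 k a ≤ B4) :
    ∑ k2 ∈ (Ioc K1 K).filter (fun k2 => G0 < (Nat.gcd h k2 : ℝ)), WW f x 2 k2 a ≤
      √((h.divisors.card * (K / G0)) * (2 * x / K1)) * √B4 := by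
  classical
  have hK10 : (0 : ℝ) < K1 := by exact_mod_cast hK1
  set S := (Ioc K1 K).filter (fun k2 => G0 < (Nat.gcd h k2 : ℝ)) with hS
  have h1 : ∀ k ∈ S, WW f x 2 k a ≤ √(2 * x / K1) * √(WW f x 4 k a) := by
    intro k hk
    rw [hS, mem_filter, mem_Ioc] at hk
    unfold WW
    have h := Real.sum_mul_le_sqrt_mul_sqrt ((Icc (1 : ℤ) x).filter (fun n => (k : ℤ) ∣ n - a))
      (fun _ => (1 : ℝ)) (fun n => ‖f n‖ ^ 2)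
    simp only [one_mul, one_pow, sum_const, nsmul_eq_mul, mul_one] at h
    refine h.trans ?_
    have e1 : ∑ n ∈ (Icc (1 : ℤ) x).filter (fun n => (k : ℤ) ∣ n - a), (‖f n‖ ^ 2) ^ 2 =
        ∑ n ∈ (Icc (1 : ℤ) x).filter (fun n => (k : ℤ) ∣ n - a), ‖f n‖ ^ 4 := by
      refine sum_congr rfl fun n _ => ?_
      rw [← pow_mul]
    rw [e1]
    apply mul_le_mul_of_nonneg_right _ (Real.sqrt_nonneg _)
    apply Real.sqrt_le_sqrt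
    refine (card_ap x k (by omega) (by omega) a).trans ?_
    apply div_le_div_of_nonneg_left (by positivity) hK10
    exact_mod_cast hk.1.1.le
  refine (sum_le_sum h1).trans ?_
  have h2 : ∑ k ∈ S, √(2 * x / K1) * √(WW f x 4 k a) ≤
      √(∑ _k ∈ S, (2 * x / K1 : ℝ)) * √(∑ k ∈ S, WW f x 4 k a) := by
    have h := Real.sum_sqrt_mul_sqrt_le S (f := fun _ => (2 * x / K1 : ℝ))
      (g := fun k => WW f x 4 k a) (fun _ => by positivity) (fun k => WW_nonneg _ _ _ _ _)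
    exact h
  refine h2.trans ?_
  have h3 : ∑ k ∈ S, WW f x 4 k a ≤ B4 := by
    refine le_trans ?_ hB4
    apply sum_le_sum_of_subset_of_nonneg
    · intro k hk
      rw [hS, mem_filter, mem_Ioc] at hk
      rw [mem_Icc]; omega
    · intros; exact WW_nonneg _ _ _ _ _
  have h4 : ∑ _k ∈ S, (2 * x / K1 : ℝ) ≤ (h.divisors.card * (K / G0)) * (2 * x / K1) := by
    rw [sum_const, nsmul_eq_mul]
    apply mul_le_mul_of_nonneg_right _ (by positivity)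
    refine le_trans ?_ (card_bad h K G0 hG0 hh)
    have : S ⊆ (Icc 1 K).filter (fun k => G0 < (Nat.gcd h k : ℝ)) := by
      intro k hk
      rw [hS, mem_filter, mem_Ioc] at hk
      rw [mem_filter, mem_Icc]
      exact ⟨by omega, hk.2⟩
    exact_mod_cast card_le_card this
  gcongr

lemma numA (P J h k1 x B2 D : ℝ) (hh : 0 < h) (hk1 : 0 < k1) (hx : 0 ≤ x) (hJ0 : 0 ≤ J)
    (hP0 : 0 ≤ P) (hP : P ≤ 2 * J * h / k1) (hJ : J ^ 2 ≤ 2 * x) (hD : 0 ≤ D) (hB2 : B2 ≤ x * D) :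
    P * (4 * J / h * B2) ≤ 16 * (x ^ 2 / k1) * D := by
  calc P * (4 * J / h * B2) ≤ P * (4 * J / h * (x * D)) := by gcongr
    _ ≤ (2 * J * h / k1) * (4 * J / h * (x * D)) := by gcongr
    _ = J ^ 2 * (8 * x * D / k1) := by field_simp; ring
    _ ≤ (2 * x) * (8 * x * D / k1) := by gcongr
    _ = 16 * (x ^ 2 / k1) * D := by ring

lemma numB (P J h k1 x K L0 B3 Λ : ℝ) (hh : 0 < h) (hk1 : 0 < k1) (hx : 0 ≤ x) (hJ0 : 0 < J)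
    (hK : 0 < K) (hΛ : 0 < Λ) (hP0 : 0 ≤ P) (hP : P ≤ 2 * J * h / k1)
    (hL0 : L0 ≤ x / (4 * J * h * K * Λ)) (hB3 : 0 ≤ B3) :
    P * (4 * K * L0 * B3) ≤ 2 * (x / k1) * (B3 / Λ) := by
  calc P * (4 * K * L0 * B3) ≤ P * (4 * K * (x / (4 * J * h * K * Λ)) * B3) := by gcongr
    _ ≤ (2 * J * h / k1) * (4 * K * (x / (4 * J * h * K * Λ)) * B3) := by gcongr
    _ = 2 * (x / k1) * (B3 / Λ) := by field_simp

lemma numC (P J h k1 x K K1 L0 L G0 M4 M6 Hs : ℝ) (c E2 V : ℕ) (hh : 0 < h) (hk1 : 0 < k1)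
    (hx : 0 < x) (hJ0 : 0 ≤ J) (hK : 0 < K) (hK1 : 0 < K1) (hL0 : 0 < L0) (hL : 1 ≤ L)
    (hG0 : 0 ≤ G0) (hP0 : 0 < P) (hP : P ≤ 2 * J * h / k1) (hJ : J ^ 2 ≤ 2 * x)
    (hKK : K ≤ K1 * L ^ E2) (hM40 : 0 ≤ M4) (hM60 : 0 ≤ M6)
    (hM4 : M4 ≤ x * L ^ c) (hM6 : M6 ≤ x * L ^ c)
    (hHs : Hs ≤ (2 * L * (K * P)) ^ (1 / 2 : ℝ) * (K * P) ^ (3 / 8 : ℝ) *
      (K * P * x * L0 ^ 2 / L ^ (8 * V)) ^ (1 / 8 : ℝ)) :
    2 * ((J / (h * K1 * L0)) * ((40 * x) ^ (1 / 2 : ℝ) * G0 * M4 ^ (1 / 4 : ℝ) *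
        M6 ^ (1 / 8 : ℝ) * L0 ^ (3 / 4 : ℝ))) * Hs ≤
      112 * (x ^ 2 / k1) * (G0 * L ^ (2 * c + 1 + E2) / L ^ V) := by
  have hL0' : 0 < L := by linarith
  have hx1 : x ^ (1 / 2 : ℝ) * x ^ (1 / 4 : ℝ) * x ^ (1 / 8 : ℝ) * x ^ (1 / 8 : ℝ) = x := by
    rw [← Real.rpow_add hx, ← Real.rpow_add hx, ← Real.rpow_add hx]
    norm_num
  have hKP : 0 < K * P := by positivity
  have hKP1 : (K * P) ^ (1 / 2 : ℝ) * (K * P) ^ (3 / 8 : ℝ) * (K * P) ^ (1 / 8 : ℝ) = K * P := by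
    rw [← Real.rpow_add hKP, ← Real.rpow_add hKP]
    norm_num
  have hL01 : L0 ^ (3 / 4 : ℝ) * (L0 ^ 2) ^ (1 / 8 : ℝ) = L0 := by
    rw [← Real.rpow_natCast L0 2, ← Real.rpow_mul hL0.le, ← Real.rpow_add hL0]
    norm_num
  have hLV : (L ^ (8 * V)) ^ (1 / 8 : ℝ) = L ^ V := by
    rw [← Real.rpow_natCast, ← Real.rpow_mul hL0'.le, ← Real.rpow_natCast]
    congr 1
    push_cast
    ring
  have e40 : (40 * x) ^ (1 / 2 : ℝ) ≤ 7 * x ^ (1 / 2 : ℝ) := by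
    rw [Real.mul_rpow (by norm_num) hx.le]
    apply mul_le_mul_of_nonneg_right _ (by positivity)
    rw [← Real.sqrt_eq_rpow, Real.sqrt_le_left (by norm_num)]
    norm_num
  have hLc : (1 : ℝ) ≤ L ^ c := one_le_pow₀ hL
  have e4 : M4 ^ (1 / 4 : ℝ) ≤ x ^ (1 / 4 : ℝ) * L ^ c := by
    calc M4 ^ (1 / 4 : ℝ) ≤ (x * L ^ c) ^ (1 / 4 : ℝ) := by gcongr
      _ = x ^ (1 / 4 : ℝ) * (L ^ c) ^ (1 / 4 : ℝ) := Real.mul_rpow hx.le (by positivity)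
      _ ≤ x ^ (1 / 4 : ℝ) * (L ^ c) ^ (1 : ℝ) := by
        apply mul_le_mul_of_nonneg_left _ (by positivity)
        exact Real.rpow_le_rpow_of_exponent_le hLc (by norm_num)
      _ = _ := by rw [Real.rpow_one]
  have e6 : M6 ^ (1 / 8 : ℝ) ≤ x ^ (1 / 8 : ℝ) * L ^ c := by
    calc M6 ^ (1 / 8 : ℝ) ≤ (x * L ^ c) ^ (1 / 8 : ℝ) := by gcongr
      _ = x ^ (1 / 8 : ℝ) * (L ^ c) ^ (1 / 8 : ℝ) := Real.mul_rpow hx.le (by positivity)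
      _ ≤ x ^ (1 / 8 : ℝ) * (L ^ c) ^ (1 : ℝ) := by
        apply mul_le_mul_of_nonneg_left _ (by positivity)
        exact Real.rpow_le_rpow_of_exponent_le hLc (by norm_num)
      _ = _ := by rw [Real.rpow_one]
  have eH : Hs ≤ 2 * L * (K * P) * (x ^ (1 / 8 : ℝ) * (L0 ^ 2) ^ (1 / 8 : ℝ) / L ^ V) := by
    refine hHs.trans ?_
    have e1 : (2 * L * (K * P)) ^ (1 / 2 : ℝ) ≤ 2 * L * (K * P) ^ (1 / 2 : ℝ) := by
      rw [Real.mul_rpow (by positivity) hKP.le]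
      apply mul_le_mul_of_nonneg_right _ (by positivity)
      calc (2 * L) ^ (1 / 2 : ℝ) ≤ (2 * L) ^ (1 : ℝ) :=
            Real.rpow_le_rpow_of_exponent_le (by linarith) (by norm_num)
        _ = 2 * L := Real.rpow_one _
    have e2 : (K * P * x * L0 ^ 2 / L ^ (8 * V)) ^ (1 / 8 : ℝ) =
        (K * P) ^ (1 / 8 : ℝ) * (x ^ (1 / 8 : ℝ) * (L0 ^ 2) ^ (1 / 8 : ℝ) / L ^ V) := by
      rw [Real.div_rpow (by positivity) (by positivity), hLV,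
        Real.mul_rpow (by positivity) (by positivity), Real.mul_rpow (by positivity) (by positivity)]
      ring
    rw [e2]
    calc (2 * L * (K * P)) ^ (1 / 2 : ℝ) * (K * P) ^ (3 / 8 : ℝ) *
          ((K * P) ^ (1 / 8 : ℝ) * (x ^ (1 / 8 : ℝ) * (L0 ^ 2) ^ (1 / 8 : ℝ) / L ^ V))
        ≤ (2 * L * (K * P) ^ (1 / 2 : ℝ)) * (K * P) ^ (3 / 8 : ℝ) *
          ((K * P) ^ (1 / 8 : ℝ) * (x ^ (1 / 8 : ℝ) * (L0 ^ 2) ^ (1 / 8 : ℝ) / L ^ V)) := by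
          gcongr
      _ = 2 * L * ((K * P) ^ (1 / 2 : ℝ) * (K * P) ^ (3 / 8 : ℝ) * (K * P) ^ (1 / 8 : ℝ)) *
          (x ^ (1 / 8 : ℝ) * (L0 ^ 2) ^ (1 / 8 : ℝ) / L ^ V) := by ring
      _ = _ := by rw [hKP1]
  have hW0 : 0 ≤ 2 * ((J / (h * K1 * L0)) * ((40 * x) ^ (1 / 2 : ℝ) * G0 * M4 ^ (1 / 4 : ℝ) *
        M6 ^ (1 / 8 : ℝ) * L0 ^ (3 / 4 : ℝ))) := by positivity
  calc 2 * ((J / (h * K1 * L0)) * ((40 * x) ^ (1 / 2 : ℝ) * G0 * M4 ^ (1 / 4 : ℝ) *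
        M6 ^ (1 / 8 : ℝ) * L0 ^ (3 / 4 : ℝ))) * Hs
      ≤ 2 * ((J / (h * K1 * L0)) * ((40 * x) ^ (1 / 2 : ℝ) * G0 * M4 ^ (1 / 4 : ℝ) *
        M6 ^ (1 / 8 : ℝ) * L0 ^ (3 / 4 : ℝ))) *
        (2 * L * (K * P) * (x ^ (1 / 8 : ℝ) * (L0 ^ 2) ^ (1 / 8 : ℝ) / L ^ V)) :=
        mul_le_mul_of_nonneg_left eH hW0
    _ ≤ 2 * ((J / (h * K1 * L0)) * ((7 * x ^ (1 / 2 : ℝ)) * G0 * (x ^ (1 / 4 : ℝ) * L ^ c) *
        (x ^ (1 / 8 : ℝ) * L ^ c) * L0 ^ (3 / 4 : ℝ))) *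
        (2 * L * (K * P) * (x ^ (1 / 8 : ℝ) * (L0 ^ 2) ^ (1 / 8 : ℝ) / L ^ V)) := by
        gcongr
    _ = 28 * (J / (h * K1 * L0)) * (x ^ (1 / 2 : ℝ) * x ^ (1 / 4 : ℝ) * x ^ (1 / 8 : ℝ) *
        x ^ (1 / 8 : ℝ)) * (L0 ^ (3 / 4 : ℝ) * (L0 ^ 2) ^ (1 / 8 : ℝ)) * (K * P) * G0 *
        (L ^ c * L ^ c * L) / L ^ V := by ring
    _ = 28 * (J / (h * K1)) * x * (K * P) * G0 * L ^ (2 * c + 1) / L ^ V := by
        rw [hx1, hL01, show 2 * c + 1 = c + c + 1 by ring, pow_succ, pow_add]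
        field_simp
    _ ≤ 28 * (J / (h * K1)) * x * ((K1 * L ^ E2) * (2 * J * h / k1)) * G0 * L ^ (2 * c + 1) / L ^ V := by
        gcongr
    _ = J ^ 2 * (56 * x / k1 * (G0 * L ^ (2 * c + 1 + E2) / L ^ V)) := by
        rw [pow_add L (2 * c + 1) E2]
        field_simp
        ring
    _ ≤ (2 * x) * (56 * x / k1 * (G0 * L ^ (2 * c + 1 + E2) / L ^ V)) := by
        gcongr
    _ = _ := by ring

end Pool.Agent.Y856.Sq
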