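import Pool.Agent.Y856.Sq.Off4
import Pool.Agent.H442R2.EHI.Core3
import Pool.Agent.TH935.LP.L1

/-!
The off-diagonal terms: conclusion.
-/

namespace Pool.Agent.Y856.Sq

open Finset Filter
open Pool.Agent.H442R2.EHI

/-- bound for fixed `k1` and small `h` -/
lemma TT_small' (hb : S_block) (f : ℤ → ℂ) (x : ℕ) (hf : ∀ n : ℤ, f n ≠ 0 → 1 ≤ n ∧ n ≤ x)
    (c : ℤ) (hc : |c| ≤ x) (J : ℕ) (hJ : J ^ 2 ≤ 2 * x) (hJ1 : 1 ≤ J) (k1 K1 K I0 I1 h : ℕ)
    (hk1 : 1 ≤ k1) (hI1 : I1 ≤ J) (hh : h ∣ k1) (hK1 : 1 ≤ K1) (hk1K : k1 ≤ K) (hKx : K ≤ x)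
    (L0 Λ : ℕ) (L : ℝ) (cc E2 V W C3 : ℕ) (hL0 : 1 ≤ L0) (hL0' : L0 ≤ x / (4 * J * h * K * Λ))
    (hΛ1 : 1 ≤ Λ) (hL : 146 ≤ L) (hKK : (K : ℝ) ≤ K1 * L ^ E2) (hk11 : K1 < k1)
    (hP1 : 1 ≤ 2 * J * h / k1)
    (hΛ : L ^ (cc + W + 1 + E2) ≤ Λ)
    (h2 : ∀ a : ℤ, |a| ≤ 4 * x → ∑ k ∈ Icc 1 K, WW f x 2 k a ≤ x * L ^ cc)
    (h4 : ∀ a : ℤ, |a| ≤ 4 * x → ∑ k ∈ Icc 1 K, WW f x 4 k a ≤ x * L ^ cc)
    (hm4 : mom f x 4 ≤ x * L ^ cc) (hm6 : mom f x 6 ≤ x * L ^ cc)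
    (hC3 : C3 = cc + E2 + 2 * (W + 1)) (hV : V = W + 1 + E2 + C3 + 2 * cc + 1)
    (hlog : 1 + Real.log K ≤ 2 * L)
    (havg : ∑ k2 ∈ Ioc K1 K, ∑ p ∈ Icc 1 (2 * J * h / k1), ∑ y ∈ Icc (-(x : ℤ)) (2 * x),
      ‖AA f (2 * (p : ℤ) * ((k1 : ℤ) - k2) * k2) L0 y‖ ^ 2 ≤
      (K : ℝ) * (2 * J * h / k1 : ℕ) * x * (L0 : ℝ) ^ 2 / L ^ (8 * V)) :
    TT f x c k1 K1 K I0 I1 h ≤ (x : ℝ) ^ 2 * k1.divisors.card / k1 / L ^ W := by
  classical
  have hL00 : 0 < L := by linarith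
  have hL1 : 1 ≤ L := by linarith
  have hh1 : 1 ≤ h := Nat.pos_of_dvd_of_pos hh hk1
  have hK0 : 1 ≤ K := by omega
  have hx1 : 1 ≤ x := by omega
  have rx : (0 : ℝ) < x := by exact_mod_cast hx1
  have rh : (0 : ℝ) < h := by exact_mod_cast hh1
  have rk1 : (0 : ℝ) < k1 := by exact_mod_cast hk1
  have rJ : (0 : ℝ) < J := by exact_mod_cast hJ1
  have rK : (0 : ℝ) < K := by exact_mod_cast hK0
  have rK1 : (0 : ℝ) < K1 := by exact_mod_cast hK1
  have rL0 : (0 : ℝ) < L0 := by exact_mod_cast hL0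
  have rΛ : (0 : ℝ) < Λ := by exact_mod_cast hΛ1
  have rJ2 : (J : ℝ) ^ 2 ≤ 2 * x := by exact_mod_cast hJ
  obtain ⟨P, hP⟩ : ∃ P, P = 2 * J * h / k1 := ⟨_, rfl⟩
  rw [← hP] at havg hP1
  have rP1 : (0 : ℝ) < P := by exact_mod_cast hP1
  have rP : (P : ℝ) ≤ 2 * J * h / k1 := by
    rw [hP]
    refine Nat.cast_div_le.trans (le_of_eq ?_)
    push_cast; ring
  have rL0' : (L0 : ℝ) ≤ x / (4 * J * h * K * Λ) := by
    have h1 : (L0 : ℝ) ≤ ((x / (4 * J * h * K * Λ) : ℕ) : ℝ) := by exact_mod_cast hL0'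
    refine h1.trans (Nat.cast_div_le.trans (le_of_eq ?_))
    push_cast; ring
  -- the shift condition
  have hΔ : 2 * (2 * J * h / k1) * K * K * L0 ≤ x := by
    rw [← hP]
    have h1 : (2 * P * K * K * L0 : ℝ) ≤ x := by
      calc (2 * P * K * K * L0 : ℝ) ≤ 2 * (2 * J * h / k1) * K * K * (x / (4 * J * h * K * Λ)) := by
            gcongr
        _ = x * (K / (k1 * Λ)) := by field_simp; ring
        _ ≤ x * 1 := by
            apply mul_le_mul_of_nonneg_left _ rx.le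
            rw [div_le_one (by positivity)]
            calc (K : ℝ) ≤ K1 * L ^ E2 := hKK
              _ ≤ k1 * Λ := by
                apply mul_le_mul _ _ (by positivity) (by positivity)
                · exact_mod_cast hk11.le
                · exact (pow_le_pow_right₀ hL1 (by omega)).trans hΛ
        _ = x := mul_one _
    exact_mod_cast h1
  set G0 : ℝ := L ^ C3 with hG0
  have hG00 : 0 < G0 := by positivity
  -- second moments
  have hB3 : ∀ a : ℤ, |a| ≤ 4 * x → ∑ k2 ∈ Ioc K1 K, WW f x 2 k2 a ≤ x * L ^ cc := by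
    intro a ha
    refine le_trans ?_ (h2 a ha)
    apply sum_le_sum_of_subset_of_nonneg
    · intro k hk
      rw [mem_Ioc] at hk
      rw [mem_Icc]; omega
    · intros; exact WW_nonneg _ _ _ _ _
  set D : ℝ := 2 * k1.divisors.card / L ^ (W + 1) with hD
  have hD0 : 0 ≤ D := by positivity
  have hτ1 : (1 : ℝ) ≤ k1.divisors.card := by
    exact_mod_cast Finset.card_pos.mpr (Nat.nonempty_divisors.mpr (by omega))
  have hτh : (h.divisors.card : ℝ) ≤ k1.divisors.card := by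
    exact_mod_cast card_le_card (Nat.divisors_subset_of_dvd (by omega) hh)
  have hB2 : ∀ a : ℤ, |a| ≤ 4 * x →
      ∑ k2 ∈ (Ioc K1 K).filter (fun k2 => G0 < (Nat.gcd h k2 : ℝ)), WW f x 2 k2 a ≤ x * D := by
    intro a ha
    refine (bad_le f x K1 K h G0 (x * L ^ cc) a hK1 hKx hG00 hh1 (h4 a ha)).trans ?_
    rw [← Real.sqrt_mul (by positivity)]
    rw [Real.sqrt_le_left (by positivity)]
    have e1 : L ^ C3 = L ^ (cc + E2) * (L ^ (W + 1)) ^ 2 := by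
      rw [hC3, ← pow_mul, ← pow_add]; congr 1; ring
    calc (h.divisors.card * (K / G0)) * (2 * x / K1) * (x * L ^ cc)
        ≤ (k1.divisors.card * ((K1 * L ^ E2) / G0)) * (2 * x / K1) * (x * L ^ cc) := by gcongr
      _ = 2 * x ^ 2 * k1.divisors.card / (L ^ (W + 1)) ^ 2 := by
          rw [hG0, e1, pow_add]; field_simp
      _ ≤ 2 * x ^ 2 * (2 * (k1.divisors.card * k1.divisors.card)) / (L ^ (W + 1)) ^ 2 := by
          gcongr
          nlinarith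
      _ = (x * D) ^ 2 := by rw [hD]; ring
  have key := TT_small f x hf c hc J hJ k1 hk1 K1 K I0 I1 h hI1 hh hb hK1 hk1K hKx L0 hL0 hΔ G0
    (x * D) (x * L ^ cc) hB2 hB3
  rw [abs_of_pos hG00, ← hP] at key
  -- Hoelder
  have hH : ∑ p ∈ Icc 1 P, ∑ k2 ∈ Ioc K1 K,
        (k2.divisors.card : ℝ) ^ (1 / 2 : ℝ) * (∑ y ∈ Icc (-(x : ℤ)) (2 * x),
          ‖AA f (2 * (p : ℤ) * ((k1 : ℤ) - k2) * k2) L0 y‖ ^ 2) ^ (1 / 8 : ℝ) ≤
      (2 * L * (K * P)) ^ (1 / 2 : ℝ) * (K * P : ℝ) ^ (3 / 8 : ℝ) *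
      (K * P * x * (L0 : ℝ) ^ 2 / L ^ (8 * V)) ^ (1 / 8 : ℝ) := by
    have h1 := holder8 ((Icc 1 P) ×ˢ (Ioc K1 K)) (fun z => (z.2.divisors.card : ℝ))
      (fun z => ∑ y ∈ Icc (-(x : ℤ)) (2 * x),
          ‖AA f (2 * (z.1 : ℤ) * ((k1 : ℤ) - z.2) * z.2) L0 y‖ ^ 2)
      (fun _ _ => Nat.cast_nonneg _) (fun _ _ => sum_nonneg fun _ _ => by positivity)
    rw [sum_product, sum_product, sum_product] at h1
    refine h1.trans ?_
    have e1 : ∑ _p ∈ Icc 1 P, ∑ k2 ∈ Ioc K1 K, (k2.divisors.card : ℝ) ≤ 2 * L * (K * P) := by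
      rw [sum_const, nsmul_eq_mul, Nat.card_Icc, Nat.add_sub_cancel]
      have e2 : ∑ k2 ∈ Ioc K1 K, (k2.divisors.card : ℝ) ≤ ∑ k2 ∈ Icc 1 K, (k2.divisors.card : ℝ) := by
        apply sum_le_sum_of_subset_of_nonneg
        · intro k hk
          rw [mem_Ioc] at hk
          rw [mem_Icc]; omega
        · intros; positivity
      have e3 : ∑ k2 ∈ Icc 1 K, (k2.divisors.card : ℝ) ≤ K * (1 + Real.log K) := by
        have e4 : ∑ k2 ∈ Icc 1 K, (k2.divisors.card : ℝ) = ∑ q ∈ Icc 1 K, ((K / q : ℕ) : ℝ) := by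
          have h5 : ∀ k ∈ Icc 1 K, (k.divisors.card : ℝ) = ∑ q ∈ Icc 1 K, if q ∣ k then (1 : ℝ) else 0 := by
            intro k hk
            rw [mem_Icc] at hk
            rw [← sum_filter, sum_const, nsmul_eq_mul, mul_one]
            congr 2
            ext d
            rw [Nat.mem_divisors, mem_filter, mem_Icc]
            constructor
            · rintro ⟨h6, _⟩
              exact ⟨⟨Nat.pos_of_dvd_of_pos h6 (by omega), (Nat.le_of_dvd (by omega) h6).trans hk.2⟩, h6⟩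
            · rintro ⟨_, h6⟩
              exact ⟨h6, by omega⟩
          rw [sum_congr rfl h5, sum_comm]
          refine sum_congr rfl fun q _ => ?_
          rw [← sum_filter, sum_const, nsmul_eq_mul, mul_one]
          have := Nat.Ioc_filter_dvd_card_eq_div K q
          rw [← this]
          congr 1
        rw [e4]
        calc ∑ q ∈ Icc 1 K, ((K / q : ℕ) : ℝ) ≤ ∑ q ∈ Icc 1 K, (K : ℝ) * (1 / (q : ℝ)) := by
              apply sum_le_sum
              intro q _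
              rw [mul_one_div]
              exact Nat.cast_div_le
          _ ≤ K * (1 + Real.log K) := by
              rw [← mul_sum]
              apply mul_le_mul_of_nonneg_left _ rK.le
              have := Pool.Agent.TH935.LD.tau_pow_div 0 K
              simpa using this
      calc (P : ℝ) * ∑ k2 ∈ Ioc K1 K, (k2.divisors.card : ℝ) ≤ P * (K * (1 + Real.log K)) := by
            gcongr
            exact e2.trans e3
        _ ≤ P * (K * (2 * L)) := by gcongr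
        _ = _ := by ring
    have e5 : (((Icc 1 P) ×ˢ (Ioc K1 K)).card : ℝ) ≤ K * P := by
      rw [card_product, Nat.card_Icc, Nat.card_Ioc, Nat.add_sub_cancel]
      push_cast
      have : ((K - K1 : ℕ) : ℝ) ≤ K := by exact_mod_cast Nat.sub_le _ _
      nlinarith
    have e6 : ∑ p ∈ Icc 1 P, ∑ k2 ∈ Ioc K1 K, ∑ y ∈ Icc (-(x : ℤ)) (2 * x),
          ‖AA f (2 * (p : ℤ) * ((k1 : ℤ) - k2) * k2) L0 y‖ ^ 2 ≤
        K * P * x * (L0 : ℝ) ^ 2 / L ^ (8 * V) := by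
      rw [sum_comm]; exact havg
    have e7 : (0 : ℝ) ≤ ∑ _p ∈ Icc 1 P, ∑ k2 ∈ Ioc K1 K, (k2.divisors.card : ℝ) :=
      sum_nonneg fun _ _ => sum_nonneg fun _ _ => Nat.cast_nonneg _
    have e8 : 0 ≤ ∑ p ∈ Icc 1 P, ∑ k2 ∈ Ioc K1 K, ∑ y ∈ Icc (-(x : ℤ)) (2 * x),
          ‖AA f (2 * (p : ℤ) * ((k1 : ℤ) - k2) * k2) L0 y‖ ^ 2 :=
      sum_nonneg fun _ _ => sum_nonneg fun _ _ => sum_nonneg fun _ _ => sq_nonneg _
    have e9 : (0 : ℝ) ≤ (((Icc 1 P) ×ˢ (Ioc K1 K)).card : ℝ) := Nat.cast_nonneg _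
    apply mul_le_mul (mul_le_mul _ _ _ _) _ _ _
    · exact Real.rpow_le_rpow e7 e1 (by norm_num)
    · exact Real.rpow_le_rpow e9 e5 (by norm_num)
    · exact Real.rpow_nonneg e9 _
    · exact Real.rpow_nonneg (mul_nonneg (by linarith) (mul_nonneg rK.le rP1.le)) _
    · exact Real.rpow_le_rpow e8 e6 (by norm_num)
    · exact Real.rpow_nonneg e8 _
    · exact mul_nonneg (Real.rpow_nonneg (mul_nonneg (by linarith) (mul_nonneg rK.le rP1.le)) _)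
        (Real.rpow_nonneg (mul_nonneg rK.le rP1.le) _)
  have hmom4 : 0 ≤ mom f x 4 := sum_nonneg fun _ _ => by positivity
  have hmom6 : 0 ≤ mom f x 6 := sum_nonneg fun _ _ => by positivity
  have nA := numA P J h k1 x (x * D) D rh rk1 rx.le rJ.le rP1.le rP rJ2 hD0 le_rfl
  have nB := numB P J h k1 x K L0 (x * L ^ cc) Λ rh rk1 rx.le rJ rK rΛ rP1.le rP rL0' (by positivity)
  have nC := numC P J h k1 x K K1 L0 L G0 (mom f x 4) (mom f x 6) _ cc E2 V rh rk1 rx rJ.le rK rK1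
    rL0 hL1 hG00.le rP1 rP rJ2 hKK hmom4 hmom6 hm4 hm6 hH
  rw [mul_add] at key
  refine (key.trans (add_le_add (add_le_add nA nB) nC)).trans ?_
  have q1 : 16 * ((x : ℝ) ^ 2 / k1) * D = 32 * ((x : ℝ) ^ 2 * k1.divisors.card / k1 / L ^ (W + 1)) := by
    rw [hD]; ring
  have q2 : 2 * ((x : ℝ) / k1) * (x * L ^ cc / Λ) ≤
      2 * ((x : ℝ) ^ 2 * k1.divisors.card / k1 / L ^ (W + 1)) := by
    have e1 : (x : ℝ) * L ^ cc / Λ ≤ x / L ^ (W + 1) := by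
      rw [div_le_div_iff₀ rΛ (by positivity)]
      calc (x : ℝ) * L ^ cc * L ^ (W + 1) = x * L ^ (cc + W + 1) := by rw [mul_assoc, ← pow_add]; rfl
        _ ≤ x * L ^ (cc + W + 1 + E2) :=
            mul_le_mul_of_nonneg_left (pow_le_pow_right₀ hL1 (by omega)) rx.le
        _ ≤ x * Λ := by gcongr
    calc 2 * ((x : ℝ) / k1) * (x * L ^ cc / Λ) ≤ 2 * ((x : ℝ) / k1) * (x / L ^ (W + 1)) := by gcongr
      _ = 2 * ((x : ℝ) ^ 2 * 1 / k1 / L ^ (W + 1)) := by ring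
      _ ≤ _ := by gcongr
  have q3 : 112 * ((x : ℝ) ^ 2 / k1) * (G0 * L ^ (2 * cc + 1 + E2) / L ^ V) ≤
      112 * ((x : ℝ) ^ 2 * k1.divisors.card / k1 / L ^ (W + 1)) := by
    have e1 : G0 * L ^ (2 * cc + 1 + E2) / L ^ V = 1 / L ^ (W + 1) := by
      have hV' : V = (C3 + (2 * cc + 1 + E2)) + (W + 1) := by omega
      rw [hG0, div_eq_div_iff (by positivity) (by positivity), one_mul, hV', pow_add L _ (W + 1),
        pow_add L C3]
    rw [e1]
    calc 112 * ((x : ℝ) ^ 2 / k1) * (1 / L ^ (W + 1)) = 112 * ((x : ℝ) ^ 2 * 1 / k1 / L ^ (W + 1)) := by ring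
      _ ≤ _ := by gcongr
  rw [q1]
  have q4 : (x : ℝ) ^ 2 * k1.divisors.card / k1 / L ^ W =
      L * ((x : ℝ) ^ 2 * k1.divisors.card / k1 / L ^ (W + 1)) := by
    have e1 : L ^ (W + 1) = L ^ W * L := pow_succ L W
    have e2 : ∀ y : ℝ, y / L ^ W = L * (y / (L ^ W * L)) := by
      intro y
      have : L ^ W ≠ 0 := by positivity
      field_simp
    rw [e1]
    exact e2 _
  rw [q4]
  have q5 : 0 ≤ (x : ℝ) ^ 2 * k1.divisors.card / k1 / L ^ (W + 1) := by positivity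
  nlinarith

end Pool.Agent.Y856.Sq
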