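import Pool.Agent.Y856.Sq.Off5

/-!
The off-diagonal terms: the theorem `off`.
-/

namespace Pool.Agent.Y856.Sq

open Finset Filter
open Pool.Agent.H442R2.EHI

/-- bound for fixed `k1` and large `h` -/
lemma TT_large' (f : ℤ → ℂ) (x : ℕ) (hf : ∀ n : ℤ, f n ≠ 0 → 1 ≤ n ∧ n ≤ x)
    (c : ℤ) (hc : |c| ≤ x) (J : ℕ) (hJ : J ^ 2 ≤ 2 * x) (k1 K1 K I0 I1 h : ℕ)
    (hk1 : 1 ≤ k1) (hI1 : I1 ≤ J) (hh : h ∣ k1) (hK1 : 1 ≤ K1) (hk1K : k1 ≤ K) (hKx : K ≤ x)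
    (L S0 : ℝ) (E1 E2 W : ℕ) (hL : 1 ≤ L) (hKK : (K : ℝ) ≤ K1 * L ^ E2)
    (hS0 : ∀ n, ‖f n‖ ≤ S0) (hS : S0 ^ 2 ≤ 9 * L ^ (4 * E1))
    (hK3 : (K : ℝ) ≤ (x : ℝ) ^ (3 / 10 : ℝ)) (hh17 : (x : ℝ) ^ (17 / 100 : ℝ) ≤ h)
    (hLx : 288 * L ^ (E2 + 4 * E1 + W) ≤ (x : ℝ) ^ (1 / 50 : ℝ)) :
    TT f x c k1 K1 K I0 I1 h ≤ (x : ℝ) ^ 2 * k1.divisors.card / k1 / L ^ W := by
  classical
  have hL0 : 0 < L := by linarith
  have hh1 : 1 ≤ h := Nat.pos_of_dvd_of_pos hh hk1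
  have hK0 : 1 ≤ K := by omega
  have hx1 : 1 ≤ x := by omega
  have rx : (0 : ℝ) < x := by exact_mod_cast hx1
  have rh : (0 : ℝ) < h := by exact_mod_cast hh1
  have rk1 : (0 : ℝ) < k1 := by exact_mod_cast hk1
  have rK : (0 : ℝ) < K := by exact_mod_cast hK0
  have rK1 : (0 : ℝ) < K1 := by exact_mod_cast hK1
  have rJ2 : (J : ℝ) ^ 2 ≤ 2 * x := by exact_mod_cast hJ
  have hB : ∀ a : ℤ, |a| ≤ 4 * x → ∑ k2 ∈ Ioc K1 K, WW f x 2 k2 a ≤ 18 * x * L ^ (E2 + 4 * E1) := by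
    intro a _
    have h1 : ∀ k ∈ Ioc K1 K, WW f x 2 k a ≤ 2 * x / K1 * (9 * L ^ (4 * E1)) := by
      intro k hk
      rw [mem_Ioc] at hk
      unfold WW
      have h2 : ∀ n ∈ (Icc (1 : ℤ) x).filter (fun n => (k : ℤ) ∣ n - a), ‖f n‖ ^ 2 ≤
          9 * L ^ (4 * E1) := by
        intro n _
        refine le_trans ?_ hS
        exact pow_le_pow_left₀ (norm_nonneg _) (hS0 n) 2
      refine (sum_le_sum h2).trans ?_
      rw [sum_const, nsmul_eq_mul]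
      apply mul_le_mul_of_nonneg_right _ (by positivity)
      refine (card_ap x k (by omega) (by omega) a).trans ?_
      apply div_le_div_of_nonneg_left (by positivity) rK1
      exact_mod_cast hk.1.le
    refine (sum_le_sum h1).trans ?_
    rw [sum_const, nsmul_eq_mul, Nat.card_Ioc]
    have h3 : ((K - K1 : ℕ) : ℝ) ≤ K1 * L ^ E2 := by
      refine le_trans ?_ hKK
      exact_mod_cast Nat.sub_le _ _
    calc ((K - K1 : ℕ) : ℝ) * (2 * x / K1 * (9 * L ^ (4 * E1))) ≤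
          (K1 * L ^ E2) * (2 * x / K1 * (9 * L ^ (4 * E1))) := by gcongr
      _ = 18 * x * L ^ (E2 + 4 * E1) := by rw [pow_add]; field_simp; ring
  refine (TT_large f x hf c hc J hJ k1 hk1 K1 K I0 I1 h hI1 hh _ hB).trans ?_
  have hsq : √(k1 : ℝ) ≤ (x : ℝ) ^ (15 / 100 : ℝ) := by
    rw [Real.sqrt_le_left (by positivity), ← Real.rpow_natCast, ← Real.rpow_mul rx.le]
    have : (k1 : ℝ) ≤ K := by exact_mod_cast hk1K
    refine (this.trans hK3).trans (le_of_eq ?_)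
    norm_num
  have hs0 : 0 < √(k1 : ℝ) := Real.sqrt_pos.2 rk1
  have e1 : 1 / √(k1 : ℝ) = √(k1 : ℝ) / k1 := by
    rw [div_eq_div_iff hs0.ne' rk1.ne', one_mul, Real.mul_self_sqrt rk1.le]
  have e2 : (x : ℝ) ^ (15 / 100 : ℝ) * L ^ (E2 + 4 * E1) * 288 ≤ h / L ^ W := by
    rw [le_div_iff₀ (by positivity)]
    calc (x : ℝ) ^ (15 / 100 : ℝ) * L ^ (E2 + 4 * E1) * 288 * L ^ W =
          (x : ℝ) ^ (15 / 100 : ℝ) * (288 * L ^ (E2 + 4 * E1 + W)) := by rw [pow_add L _ W]; ring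
      _ ≤ (x : ℝ) ^ (15 / 100 : ℝ) * (x : ℝ) ^ (1 / 50 : ℝ) := by gcongr
      _ = (x : ℝ) ^ (17 / 100 : ℝ) := by rw [← Real.rpow_add rx]; norm_num
      _ ≤ h := hh17
  have hτ0 : (0 : ℝ) ≤ k1.divisors.card := Nat.cast_nonneg _
  calc (k1.divisors.card : ℝ) * (2 * J / √(k1 : ℝ)) * (4 * J / h * (18 * x * L ^ (E2 + 4 * E1)))
      = (J : ℝ) ^ 2 * (144 * x * k1.divisors.card * L ^ (E2 + 4 * E1) / h * (1 / √(k1 : ℝ))) := by
        ring
    _ ≤ (2 * x) * (144 * x * k1.divisors.card * L ^ (E2 + 4 * E1) / h * (1 / √(k1 : ℝ))) := by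
        apply mul_le_mul_of_nonneg_right rJ2
        apply mul_nonneg _ (by positivity)
        apply div_nonneg _ rh.le
        exact mul_nonneg (mul_nonneg (by positivity) hτ0) (by positivity)
    _ = ((x : ℝ) ^ 2 * k1.divisors.card / k1) * ((√(k1 : ℝ) * L ^ (E2 + 4 * E1) * 288) / h) := by
        rw [e1]; ring
    _ ≤ ((x : ℝ) ^ 2 * k1.divisors.card / k1) * (((x : ℝ) ^ (15 / 100 : ℝ) * L ^ (E2 + 4 * E1) * 288) / h) := by
        have : 0 ≤ (x : ℝ) ^ 2 * k1.divisors.card / k1 :=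
          div_nonneg (mul_nonneg (by positivity) hτ0) rk1.le
        gcongr
    _ ≤ ((x : ℝ) ^ 2 * k1.divisors.card / k1) * ((h / L ^ W) / h) := by
        have : 0 ≤ (x : ℝ) ^ 2 * k1.divisors.card / k1 :=
          div_nonneg (mul_nonneg (by positivity) hτ0) rk1.le
        gcongr
    _ = (x : ℝ) ^ 2 * k1.divisors.card / k1 / L ^ W := by field_simp

theorem off (hp : S_pairs) (hb : S_block) (ha : S_avg) (hm : S_mom) (ht : S_tb) : S_off := by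
  classical
  intro ε U E2 hε
  obtain ⟨c4, hc4⟩ := hm 4
  obtain ⟨c6, hc6⟩ := hm 6
  obtain ⟨t2, ht2⟩ := ht 2
  obtain ⟨t4, ht4⟩ := ht 4
  obtain ⟨cc, hcc⟩ : ∃ cc, cc = c4 + c6 + t2 + t4 := ⟨_, rfl⟩
  obtain ⟨W, hW⟩ : ∃ W, W = U + 10 := ⟨_, rfl⟩
  obtain ⟨C3, hC3⟩ : ∃ C3, C3 = cc + E2 + 2 * (W + 1) := ⟨_, rfl⟩
  obtain ⟨V, hV⟩ : ∃ V, V = W + 1 + E2 + C3 + 2 * cc + 1 := ⟨_, rfl⟩
  obtain ⟨C, hC⟩ : ∃ C, C = cc + W + 1 + E2 := ⟨_, rfl⟩
  have hε' : 0 < min ε (1 / 50) := lt_min hε (by norm_num)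
  obtain ⟨E0, hE0⟩ := ha (min ε (1 / 50)) (8 * V) (C + 1) hε'
  refine ⟨E0, fun E1 hE1 => ?_⟩
  obtain ⟨x1, hx1⟩ := hE0 E1 hE1
  obtain ⟨x2, hx2⟩ := hc4 E1
  obtain ⟨x3, hx3⟩ := hc6 E1
  obtain ⟨x4, hx4⟩ := ht2 E1
  obtain ⟨x5, hx5⟩ := ht4 E1
  have hev : ∀ᶠ x : ℕ in atTop, x1 ≤ x ∧ x2 ≤ x ∧ x3 ≤ x ∧ x4 ≤ x ∧ x5 ≤ x ∧ 100 ≤ x ∧
      300 ≤ Real.log x ∧ Real.log x ^ (E2 + 4 * E1 + W + 1) ≤ (x : ℝ) ^ (1 / 50 : ℝ) ∧
      Real.log x ^ (C + 1) ≤ (x : ℝ) ^ (1 / 100 : ℝ) := by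
    filter_upwards [eventually_ge_atTop x1, eventually_ge_atTop x2, eventually_ge_atTop x3,
      eventually_ge_atTop x4, eventually_ge_atTop x5, eventually_ge_atTop 100, evt_log_ge 300,
      evt_log_pow (E2 + 4 * E1 + W + 1) (1 / 50) (by norm_num),
      evt_log_pow (C + 1) (1 / 100) (by norm_num)] with x h1 h2 h3 h4 h5 h6 h7 h8 h9
    exact ⟨h1, h2, h3, h4, h5, h6, h7, h8, h9⟩
  obtain ⟨x0, hx0⟩ := eventually_atTop.mp hev
  refine ⟨x0, fun x hx Q K1 K I0 I1 c hQ1 hQ2 hKε hK3 hK1K hKK hI01 hI1 hc => ?_⟩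
  obtain ⟨g1, g2, g3, g4, g5, g6, g7, g8, g9⟩ := hx0 x hx
  obtain ⟨L, hLdef⟩ : ∃ L, L = Real.log x := ⟨_, rfl⟩
  rw [← hLdef] at hQ1 hQ2 hKK g7 g8 g9 ⊢
  have hL1 : 1 ≤ L := by linarith
  have hL0 : 0 < L := by linarith
  have hx100 : (100 : ℝ) ≤ x := by exact_mod_cast g6
  have rx : (0 : ℝ) < x := by linarith
  have rx1 : (1 : ℝ) ≤ x := by linarith
  have hKpos : (0 : ℝ) < K := lt_of_lt_of_le (by positivity) hKε
  have hK0 : 1 ≤ K := by exact_mod_cast hKpos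
  have hK10 : 1 ≤ K1 := by
    rcases Nat.eq_zero_or_pos K1 with h | h
    · rw [h] at hKK
      simp at hKK
      linarith
    · exact h
  have hKx' : (K : ℝ) ≤ x := by
    refine hK3.trans ?_
    calc (x : ℝ) ^ (3 / 10 : ℝ) ≤ (x : ℝ) ^ (1 : ℝ) :=
          Real.rpow_le_rpow_of_exponent_le rx1 (by norm_num)
      _ = x := Real.rpow_one _
  have hKx : K ≤ x := by exact_mod_cast hKx'
  have hK2x : K ^ 2 ≤ x := by
    have : (K : ℝ) ^ 2 ≤ x := by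
      calc (K : ℝ) ^ 2 ≤ ((x : ℝ) ^ (3 / 10 : ℝ)) ^ 2 := by gcongr
        _ = (x : ℝ) ^ (6 / 10 : ℝ) := by
          rw [← Real.rpow_natCast, ← Real.rpow_mul rx.le]; norm_num
        _ ≤ (x : ℝ) ^ (1 : ℝ) := Real.rpow_le_rpow_of_exponent_le rx1 (by norm_num)
        _ = x := Real.rpow_one _
    exact_mod_cast this
  have hlogK : 1 + Real.log K ≤ 2 * L := by
    have := Real.log_le_log hKpos hKx'
    rw [hLdef] at *
    linarith
  -- `J`
  obtain ⟨J, hJdef⟩ : ∃ J, J = Nat.sqrt (2 * x) := ⟨_, rfl⟩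
  have hJ : J ^ 2 ≤ 2 * x := by rw [hJdef]; exact Nat.sqrt_le' _
  have hJ2 : 2 * x < (J + 1) ^ 2 := by rw [hJdef]; exact Nat.lt_succ_sqrt' _
  have hI1J : I1 ≤ J := by rw [hJdef]; exact Nat.le_sqrt'.2 hI1
  have rJ2 : (J : ℝ) ^ 2 ≤ 2 * x := by exact_mod_cast hJ
  have rJ3 : 2 * (x : ℝ) < (J + 1) ^ 2 := by exact_mod_cast hJ2
  have hsx : (10 : ℝ) ≤ √x := by
    rw [Real.le_sqrt (by norm_num) rx.le]; linarith
  have hsx2 : √(x : ℝ) * √x = x := Real.mul_self_sqrt rx.le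
  have rJ4 : √(x : ℝ) ≤ J := by
    by_contra hcon
    push Not at hcon
    have h1 : ((J : ℝ) + 1) ^ 2 ≤ (√x + 1) ^ 2 := by gcongr
    nlinarith
  have rJpos : (0 : ℝ) < J := by linarith
  have hJ1 : 1 ≤ J := by exact_mod_cast rJpos
  have rJ5 : (J : ℝ) ≤ 3 / 2 * √x := by
    by_contra hcon
    push Not at hcon
    nlinarith
  have hsxr : √(x : ℝ) = (x : ℝ) ^ (1 / 2 : ℝ) := Real.sqrt_eq_rpow _
  -- `Λ`
  obtain ⟨Λ, hΛdef⟩ : ∃ Λ, Λ = ⌊L ^ C⌋₊ + 1 := ⟨_, rfl⟩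
  have hLC1 : (1 : ℝ) ≤ L ^ C := one_le_pow₀ hL1
  have hΛ1 : L ^ C ≤ Λ := by
    rw [hΛdef]; push_cast
    exact (Nat.lt_floor_add_one _).le
  have hΛ2 : (Λ : ℝ) ≤ 2 * L ^ C := by
    rw [hΛdef]; push_cast
    have := Nat.floor_le (show 0 ≤ L ^ C by positivity)
    linarith
  have hΛ0 : 1 ≤ Λ := by rw [hΛdef]; omega
  have rΛ : (0 : ℝ) < Λ := by exact_mod_cast hΛ0
  -- `f`
  obtain ⟨f, hfdef⟩ : ∃ f, f = ffz x Q := ⟨_, rfl⟩
  have hf : ∀ n : ℤ, f n ≠ 0 → 1 ≤ n ∧ n ≤ x := by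
    intro n hn
    by_contra hcon
    apply hn
    rw [hfdef]
    exact ffz_zero hcon
  have hfS : ∀ n, ‖f n‖ ≤ 1 + 2 * (Q : ℝ) ^ 2 := by
    intro n; rw [hfdef]; exact ffz_bound x Q n
  have hS : (1 + 2 * (Q : ℝ) ^ 2) ^ 2 ≤ 9 * L ^ (4 * E1) := by
    have h1 : (Q : ℝ) ^ 2 ≤ L ^ (2 * E1) := by
      calc (Q : ℝ) ^ 2 ≤ (L ^ E1) ^ 2 := by gcongr
        _ = _ := by rw [← pow_mul]; congr 1; ring
    have h2 : (1 : ℝ) ≤ L ^ (2 * E1) := one_le_pow₀ hL1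
    calc (1 + 2 * (Q : ℝ) ^ 2) ^ 2 ≤ (3 * L ^ (2 * E1)) ^ 2 := by
          apply pow_le_pow_left₀ (by positivity); linarith
      _ = 9 * L ^ (4 * E1) := by rw [mul_pow, ← pow_mul]; norm_num; congr 1; ring
  have pmono : ∀ t : ℕ, t ≤ cc → L ^ t ≤ L ^ cc := fun t htc => pow_le_pow_right₀ hL1 htc
  have h2 : ∀ a : ℤ, |a| ≤ 4 * x → ∑ k ∈ Icc 1 K, WW f x 2 k a ≤ x * L ^ cc := by
    intro a ha
    have := hx4 x g4 Q K (by rw [← hLdef]; exact hQ1) hK2x a ha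
    rw [← hLdef, ← hfdef] at this
    unfold WW
    refine this.trans ?_
    exact mul_le_mul_of_nonneg_left (pmono t2 (by omega)) rx.le
  have h4 : ∀ a : ℤ, |a| ≤ 4 * x → ∑ k ∈ Icc 1 K, WW f x 4 k a ≤ x * L ^ cc := by
    intro a ha
    have := hx5 x g5 Q K (by rw [← hLdef]; exact hQ1) hK2x a ha
    rw [← hLdef, ← hfdef] at this
    unfold WW
    refine this.trans ?_
    exact mul_le_mul_of_nonneg_left (pmono t4 (by omega)) rx.le
  have hm4 : mom f x 4 ≤ x * L ^ cc := by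
    have := hx2 x g2 Q (by rw [← hLdef]; exact hQ1)
    rw [← hLdef, ← hfdef] at this
    exact this.trans (mul_le_mul_of_nonneg_left (pmono c4 (by omega)) rx.le)
  have hm6 : mom f x 6 ≤ x * L ^ cc := by
    have := hx3 x g3 Q (by rw [← hLdef]; exact hQ1)
    rw [← hLdef, ← hfdef] at this
    exact this.trans (mul_le_mul_of_nonneg_left (pmono c6 (by omega)) rx.le)
  -- the bound for `TT`
  have hTT : ∀ k1 ∈ Ioc K1 K, ∀ h ∈ k1.divisors,
      TT f x c k1 K1 K I0 I1 h ≤ (x : ℝ) ^ 2 * k1.divisors.card / k1 / L ^ W := by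
    intro k1 hk1 h hhk
    rw [mem_Ioc] at hk1
    have hh : h ∣ k1 := Nat.dvd_of_mem_divisors hhk
    have hk11 : 1 ≤ k1 := by omega
    have hh1 : 1 ≤ h := Nat.pos_of_dvd_of_pos hh hk11
    have rh : (1 : ℝ) ≤ h := by exact_mod_cast hh1
    have rk1 : (0 : ℝ) < k1 := by exact_mod_cast hk11
    have rk1K : (k1 : ℝ) ≤ K := by exact_mod_cast hk1.2
    rcases le_or_gt ((x : ℝ) ^ (17 / 100 : ℝ)) h with hbig | hsm
    · refine TT_large' f x hf c hc J hJ k1 K1 K I0 I1 h hk11 hI1J hh hK10 hk1.2 hKx L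
        (1 + 2 * (Q : ℝ) ^ 2) E1 E2 W hL1 hKK hfS hS hK3 hbig ?_
      refine le_trans ?_ g8
      rw [pow_succ, mul_comm]
      apply mul_le_mul_of_nonneg_left _ (by positivity)
      linarith
    · -- `L0`
      have hden : (4 * J * h * K * Λ : ℝ) ≤ 12 * L ^ C * (x : ℝ) ^ (97 / 100 : ℝ) := by
        calc (4 * J * h * K * Λ : ℝ) ≤ 4 * (3 / 2 * √x) * (x : ℝ) ^ (17 / 100 : ℝ) *
              (x : ℝ) ^ (3 / 10 : ℝ) * (2 * L ^ C) := by gcongr
          _ = 12 * L ^ C * ((x : ℝ) ^ (1 / 2 : ℝ) * (x : ℝ) ^ (17 / 100 : ℝ) *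
              (x : ℝ) ^ (3 / 10 : ℝ)) := by rw [hsxr]; ring
          _ = _ := by rw [← Real.rpow_add rx, ← Real.rpow_add rx]; norm_num
      have hdpos : (0 : ℝ) < 4 * J * h * K * Λ := by positivity
      obtain ⟨y, hy⟩ : ∃ y : ℝ, y = (x : ℝ) / (4 * J * h * K * Λ) := ⟨_, rfl⟩
      have hy1 : 2 * (x : ℝ) ^ (1 / 50 : ℝ) ≤ y := by
        rw [hy, le_div_iff₀ hdpos]
        calc 2 * (x : ℝ) ^ (1 / 50 : ℝ) * (4 * J * h * K * Λ) ≤
              2 * (x : ℝ) ^ (1 / 50 : ℝ) * (12 * L ^ C * (x : ℝ) ^ (97 / 100 : ℝ)) := by gcongr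
          _ = (24 * L ^ C) * ((x : ℝ) ^ (1 / 50 : ℝ) * (x : ℝ) ^ (97 / 100 : ℝ)) := by ring
          _ ≤ (x : ℝ) ^ (1 / 100 : ℝ) * ((x : ℝ) ^ (1 / 50 : ℝ) * (x : ℝ) ^ (97 / 100 : ℝ)) := by
              gcongr
              refine le_trans ?_ g9
              rw [pow_succ, mul_comm]
              gcongr
              linarith
          _ = x := by rw [← Real.rpow_add rx, ← Real.rpow_add rx]; norm_num
      obtain ⟨L0, hL0def⟩ : ∃ L0, L0 = x / (4 * J * h * K * Λ) := ⟨_, rfl⟩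
      have hx50 : (1 : ℝ) ≤ (x : ℝ) ^ (1 / 50 : ℝ) := Real.one_le_rpow rx1 (by norm_num)
      have hL0y : y < L0 + 1 := by
        rw [hy, hL0def, div_lt_iff₀ hdpos]
        have := Nat.lt_mul_div_succ x (show 0 < 4 * J * h * K * Λ by positivity)
        have h5 : (x : ℝ) < ((4 * J * h * K * Λ * (x / (4 * J * h * K * Λ) + 1) : ℕ) : ℝ) := by
          exact_mod_cast this
        refine h5.trans_le (le_of_eq ?_)
        push_cast; ring
      have hL0a : (x : ℝ) ^ (1 / 50 : ℝ) ≤ L0 := by linarith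
      have hL0b : y / 2 ≤ L0 := by linarith
      have hL0c : (L0 : ℝ) ≤ y := by
        rw [hy, hL0def]
        refine Nat.cast_div_le.trans (le_of_eq ?_)
        push_cast; ring
      have hL01 : 1 ≤ L0 := by
        have : (1 : ℝ) ≤ L0 := hx50.trans hL0a
        exact_mod_cast this
      -- `P`
      obtain ⟨P, hPdef⟩ : ∃ P, P = 2 * J * h / k1 := ⟨_, rfl⟩
      obtain ⟨w, hw⟩ : ∃ w : ℝ, w = 2 * J * h / k1 := ⟨_, rfl⟩
      have hw1 : 2 * (x : ℝ) ^ (1 / 50 : ℝ) ≤ w := by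
        rw [hw, le_div_iff₀ rk1]
        calc 2 * (x : ℝ) ^ (1 / 50 : ℝ) * k1 ≤ 2 * (x : ℝ) ^ (1 / 50 : ℝ) * (x : ℝ) ^ (3 / 10 : ℝ) := by
              gcongr
              exact rk1K.trans hK3
          _ = 2 * (x : ℝ) ^ (32 / 100 : ℝ) := by rw [mul_assoc, ← Real.rpow_add rx]; norm_num
          _ ≤ 2 * (x : ℝ) ^ (1 / 2 : ℝ) := by
              apply mul_le_mul_of_nonneg_left _ (by norm_num)
              exact Real.rpow_le_rpow_of_exponent_le rx1 (by norm_num)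
          _ = 2 * √x := by rw [hsxr]
          _ ≤ 2 * J * 1 := by linarith
          _ ≤ 2 * J * h := by gcongr
      have hPw : w < P + 1 := by
        rw [hw, hPdef, div_lt_iff₀ rk1]
        have := Nat.lt_mul_div_succ (2 * J * h) (show 0 < k1 by omega)
        have h5 : ((2 * J * h : ℕ) : ℝ) < ((k1 * (2 * J * h / k1 + 1) : ℕ) : ℝ) := by
          exact_mod_cast this
        push_cast at h5 ⊢
        linarith
      have hPa : (x : ℝ) ^ (1 / 50 : ℝ) ≤ P := by linarith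
      have hPb : w / 2 ≤ P := by linarith
      have hPc : (P : ℝ) ≤ w := by
        rw [hw, hPdef]
        refine Nat.cast_div_le.trans (le_of_eq ?_)
        push_cast; ring
      have hP1 : 1 ≤ P := by
        have : (1 : ℝ) ≤ P := hx50.trans hPa
        exact_mod_cast this
      have hεx : (x : ℝ) ^ (min ε (1 / 50)) ≤ (x : ℝ) ^ (1 / 50 : ℝ) :=
        Real.rpow_le_rpow_of_exponent_le rx1 (min_le_right _ _)
      have hεK : (x : ℝ) ^ (min ε (1 / 50)) ≤ K :=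
        (Real.rpow_le_rpow_of_exponent_le rx1 (min_le_left _ _)).trans hKε
      have hw0 : 0 ≤ w := by linarith
      have hy0 : 0 ≤ y := by linarith
      have c1 : 2 * P * K ^ 2 * L0 ≤ x := by
        have : (2 * P * (K : ℝ) ^ 2 * L0 : ℝ) ≤ x := by
          calc (2 * P * (K : ℝ) ^ 2 * L0 : ℝ) ≤ 2 * w * (K : ℝ) ^ 2 * y := by gcongr
            _ = x * (K / (k1 * Λ)) := by rw [hw, hy]; field_simp; ring
            _ ≤ x * 1 := by
                apply mul_le_mul_of_nonneg_left _ rx.le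
                rw [div_le_one (by positivity)]
                calc (K : ℝ) ≤ K1 * L ^ E2 := hKK
                  _ ≤ k1 * Λ := by
                    apply mul_le_mul _ _ (by positivity) (by positivity)
                    · exact_mod_cast hk1.1.le
                    · exact (pow_le_pow_right₀ hL1 (by omega)).trans hΛ1
            _ = x := mul_one _
        exact_mod_cast this
      have c2 : (x : ℝ) ≤ P * (K : ℝ) ^ 2 * L0 * L ^ (C + 1) := by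
        calc (x : ℝ) ≤ x * (K / k1) * (L ^ C / Λ * 2) * (L / 16) := by
              have e1 : (1 : ℝ) ≤ K / k1 := by rw [one_le_div rk1]; exact rk1K
              have e2 : (1 : ℝ) ≤ L ^ C / Λ * 2 := by
                rw [div_mul_eq_mul_div, one_le_div rΛ]; linarith
              have e3 : (1 : ℝ) ≤ L / 16 := by linarith
              have e4 : (x : ℝ) ≤ x * (K / k1) := le_mul_of_one_le_right rx.le e1
              have e5 : (x : ℝ) * (K / k1) ≤ x * (K / k1) * (L ^ C / Λ * 2) :=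
                le_mul_of_one_le_right (by positivity) e2
              have e6 : (x : ℝ) * (K / k1) * (L ^ C / Λ * 2) ≤
                  x * (K / k1) * (L ^ C / Λ * 2) * (L / 16) :=
                le_mul_of_one_le_right (by positivity) e3
              exact e4.trans (e5.trans e6)
          _ = (w / 2) * (K : ℝ) ^ 2 * (y / 2) * L ^ (C + 1) := by
              rw [hw, hy, pow_succ]; field_simp; ring
          _ ≤ P * (K : ℝ) ^ 2 * L0 * L ^ (C + 1) := by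
              have : 0 ≤ w / 2 := by
                have : 0 < (x : ℝ) ^ (1 / 50 : ℝ) := by positivity
                linarith
              have : 0 ≤ y / 2 := by
                have : 0 < (x : ℝ) ^ (1 / 50 : ℝ) := by positivity
                linarith
              gcongr
      have havg := hx1 x g1 Q K1 K P L0 k1 (by rw [← hLdef]; exact hQ1) (by rw [← hLdef]; exact hQ2)
        hεK (hεx.trans hPa) (hεx.trans hL0a) hk1.2 hK1K c1 (by rw [← hLdef]; exact c2)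
      rw [← hLdef, ← hfdef, hPdef] at havg
      exact TT_small' hb f x hf c hc J hJ hJ1 k1 K1 K I0 I1 h hk11 hI1J hh hK10 hk1.2 hKx L0 Λ L cc
        E2 V W C3 hL01 (le_of_eq hL0def) hΛ0 (by linarith) hKK hk1.1 (by rw [← hPdef]; exact hP1)
        (by rw [← hC]; exact hΛ1) h2 h4 hm4 hm6 hC3 hV hlogK havg
  -- conclusion
  have hO : ∀ k1 ∈ Ioc K1 K, ∑ k2 ∈ (Ioc K1 K).filter (fun k2 => k2 ≠ k1),
      ‖Off f x c k1 k2 I0 I1‖ ≤ (x : ℝ) ^ 2 / L ^ W * ((k1.divisors.card : ℝ) ^ 3 / k1) := by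
    intro k1 hk1
    have hk1' := mem_Ioc.mp hk1
    have rk1 : (0 : ℝ) < k1 := by exact_mod_cast (by omega : 0 < k1)
    have e1 : ∀ k2 ∈ (Ioc K1 K).filter (fun k2 => k2 ≠ k1), ‖Off f x c k1 k2 I0 I1‖ ≤ _ :=
      fun k2 _ => off_le hp f x c k1 k2 I0 I1 (by omega) hI01
    refine (sum_le_sum e1).trans ?_
    rw [← mul_sum, sum_comm]
    calc (k1.divisors.card : ℝ) * ∑ h ∈ k1.divisors, TT f x c k1 K1 K I0 I1 h
        ≤ (k1.divisors.card : ℝ) * ∑ h ∈ k1.divisors,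
          ((x : ℝ) ^ 2 * k1.divisors.card / k1 / L ^ W) := by
          apply mul_le_mul_of_nonneg_left _ (Nat.cast_nonneg _)
          exact sum_le_sum (hTT k1 hk1)
      _ = (x : ℝ) ^ 2 / L ^ W * ((k1.divisors.card : ℝ) ^ 3 / k1) := by
          rw [sum_const, nsmul_eq_mul]; ring
  rw [← hfdef]
  refine (sum_le_sum hO).trans ?_
  rw [← mul_sum]
  have e2 : ∑ k1 ∈ Ioc K1 K, (k1.divisors.card : ℝ) ^ 3 / k1 ≤ 256 * L ^ 8 := by
    have e3 : ∑ k1 ∈ Ioc K1 K, (k1.divisors.card : ℝ) ^ 3 / k1 ≤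
        ∑ k1 ∈ Icc 1 K, (k1.divisors.card : ℝ) ^ 3 / k1 := by
      apply sum_le_sum_of_subset_of_nonneg
      · intro k hk
        rw [mem_Ioc] at hk
        rw [mem_Icc]; omega
      · intro k _ _
        exact div_nonneg (pow_nonneg (Nat.cast_nonneg _) _) (Nat.cast_nonneg _)
    refine e3.trans ((Pool.Agent.TH935.LD.tau_pow_div 3 K).trans ?_)
    have : 0 ≤ 1 + Real.log K := by
      have := Real.log_natCast_nonneg K
      linarith
    calc (1 + Real.log K) ^ (2 ^ 3) ≤ (2 * L) ^ (2 ^ 3) := by gcongr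
      _ = 256 * L ^ 8 := by rw [mul_pow]; norm_num
  calc (x : ℝ) ^ 2 / L ^ W * ∑ k1 ∈ Ioc K1 K, (k1.divisors.card : ℝ) ^ 3 / k1
      ≤ (x : ℝ) ^ 2 / L ^ W * (256 * L ^ 8) := by gcongr
    _ = (x : ℝ) ^ 2 / L ^ U * (256 / L ^ 2) := by
        rw [hW, show U + 10 = U + 8 + 2 by ring, pow_add, pow_add]; field_simp
    _ ≤ (x : ℝ) ^ 2 / L ^ U * 1 := by
        gcongr
        rw [div_le_one (by positivity)]
        nlinarith
    _ = _ := mul_one _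

end Pool.Agent.Y856.Sq
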